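import Pool.Agent.J4H86.AS.Lim

/-!
# A pointwise limit of Fourier transforms of a bounded sequence of `L¹` functions
-/

set_option autoImplicit false

open MeasureTheory Filter Topology Set
open scoped ENNReal FourierTransform

namespace Pool.Agent.J4H86.AS

theorem fourier_eq (g : ℝ → ℂ) (ξ : ℝ) : 𝓕 g ξ = ∫ x, ch (ξ * x) * g x := by
  rw [Real.fourier_real_eq_integral_exp_smul]
  congr 1
  funext x
  rw [smul_eq_mul]
  congr 1
  unfold ch
  congr 2
  push_cast
  ring

theorem continuous_fourier {g : ℝ → ℂ} (hg : Integrable g) : Continuous (𝓕 g) := by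
  have H : HasRep volume (fun x : ℝ => x) g (𝓕 g) := ⟨measurable_id, hg, fun ξ => fourier_eq g ξ⟩
  exact H.continuous

/-- positive parts -/
noncomputable def pp (z : ℂ) (i : Fin 4) : ℝ := ![max z.re 0, max (-z.re) 0, max z.im 0, max (-z.im) 0] i

/-- coefficients. -/
noncomputable def cc (i : Fin 4) : ℂ := ![1, -1, Complex.I, -Complex.I] i

theorem pp_nonneg (z : ℂ) (i : Fin 4) : 0 ≤ pp z i := by
  fin_cases i <;> simp [pp]

theorem pp_le (z : ℂ) (i : Fin 4) : pp z i ≤ ‖z‖ := by
  have h1 := Complex.abs_re_le_norm z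
  have h2 := Complex.abs_im_le_norm z
  have h3 := le_abs_self z.re
  have h4 := neg_le_abs z.re
  have h5 := le_abs_self z.im
  have h6 := neg_le_abs z.im
  have h7 := norm_nonneg z
  fin_cases i <;> simp [pp] <;> linarith

theorem pp_sum (z : ℂ) : ∑ i, cc i * (pp z i : ℂ) = z := by
  rw [Fin.sum_univ_four]
  simp only [cc, pp, Matrix.cons_val_zero, Matrix.cons_val_one, Matrix.cons_val]
  have h1 : max z.re 0 - max (-z.re) 0 = z.re := by
    rcases le_total 0 z.re with h | h
    · rw [max_eq_left h, max_eq_right (by linarith)]; ring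
    · rw [max_eq_right h, max_eq_left (by linarith)]; ring
  have h2 : max z.im 0 - max (-z.im) 0 = z.im := by
    rcases le_total 0 z.im with h | h
    · rw [max_eq_left h, max_eq_right (by linarith)]; ring
    · rw [max_eq_right h, max_eq_left (by linarith)]; ring
  have h3 : (1:ℂ) * ((max z.re 0 : ℝ) : ℂ) + -1 * ((max (-z.re) 0 : ℝ) : ℂ) + Complex.I * ((max z.im 0 : ℝ) : ℂ)
      + -Complex.I * ((max (-z.im) 0 : ℝ) : ℂ) =
      ((max z.re 0 - max (-z.re) 0 : ℝ) : ℂ) + ((max z.im 0 - max (-z.im) 0 : ℝ) : ℂ) * Complex.I := by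
    push_cast
    ring
  rw [h3, h1, h2, Complex.re_add_im]

theorem measurable_pp (i : Fin 4) : Measurable (fun z : ℂ => pp z i) := by
  fin_cases i <;> simp only [pp, Matrix.cons_val_zero, Matrix.cons_val_one, Matrix.cons_val] <;> fun_prop

theorem exists_rep {g : ℕ → ℝ → ℂ} {M : ℝ} (hg : ∀ n, Integrable (g n)) (hM : ∀ n, ∫ x, ‖g n x‖ ≤ M)
    {f : ℝ → ℂ} (hf : ∀ ξ, Tendsto (fun n => 𝓕 (g n) ξ) atTop (𝓝 (f ξ))) :
    ∃ (Ω : Type) (_ : MeasurableSpace Ω) (P : Measure Ω) (_ : IsFiniteMeasure P) (X : Ω → ℝ)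
      (h : Ω → ℂ) (F : ℝ → ℂ), HasRep P X h F ∧ F =ᵐ[volume] f := by
  have hM0 : 0 ≤ M := (integral_nonneg (fun x => norm_nonneg _)).trans (hM 0)
  -- positive parts
  set p : Fin 4 → ℕ → ℝ → ℝ := fun i n x => pp (g n x) i with hp
  have hp0 : ∀ i n x, 0 ≤ p i n x := fun i n x => pp_nonneg _ _
  have hpi : ∀ i n, Integrable (p i n) := by
    intro i n
    apply (hg n).norm.mono
    · exact ((measurable_pp i).comp_aemeasurable (hg n).aestronglyMeasurable.aemeasurable).aestronglyMeasurable
    · refine Eventually.of_forall fun x => ?_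
      rw [Real.norm_eq_abs, abs_of_nonneg (hp0 i n x), norm_norm]
      exact pp_le _ _
  have hpM : ∀ i n, ∫ x, p i n x ≤ M := by
    intro i n
    refine le_trans ?_ (hM n)
    exact integral_mono (hpi i n) (hg n).norm (fun x => pp_le _ _)
  have hex := fun i => exists_measure (p i) (hp0 i) (hpi i) (hpM i)
  choose κ hκf hκ using hex
  have hκf' : ∀ i, IsFiniteMeasure (κ i) := hκf
  -- limits against functions vanishing at infinity
  have hC0 : ∀ ψ : ℝ → ℂ, Continuous ψ → Tendsto ψ (cocompact ℝ) (𝓝 0) → (∃ C, ∀ x, ‖ψ x‖ ≤ C) →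
      Tendsto (fun n => ∫ x, ψ x * g n x) (UU : Filter ℕ) (𝓝 (∑ i, cc i * ∫ x, ψ x ∂(κ i))) := by
    intro ψ hψ hψ0 hψb
    obtain ⟨C, hC⟩ := hψb
    have h1 : ∀ n, ∫ x, ψ x * g n x = ∑ i, cc i * ∫ x, ψ x * (p i n x : ℂ) := by
      intro n
      have h2 : ∀ i, Integrable (fun x => cc i * (ψ x * (p i n x : ℂ))) := fun i =>
        (((hpi i n).ofReal.bdd_mul (c := C) hψ.aestronglyMeasurable (Eventually.of_forall hC))).const_mul _
      simp_rw [← integral_const_mul]
      rw [← integral_finset_sum _ (fun i _ => h2 i)]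
      congr 1
      funext x
      rw [← Finset.sum_congr rfl (fun i _ => mul_left_comm (ψ x) (cc i) (p i n x : ℂ)), ← Finset.mul_sum]
      rw [hp]
      show ψ x * g n x = ψ x * ∑ i, cc i * ((pp (g n x) i : ℝ) : ℂ)
      rw [pp_sum]
    simp_rw [h1]
    apply tendsto_finset_sum
    intro i _
    exact (tendsto_C0 (hp0 i) (hpi i) (hpM i) (hκ i) hψ hψ0).const_mul _
  -- the representation
  let P : Measure (Fin 4 × ℝ) := ∑ i : Fin 4, (κ i).map (fun x => (i, x))
  have hmk : ∀ i : Fin 4, Measurable (fun x : ℝ => (i, x)) := fun i => measurable_const.prodMk measurable_id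
  have hPf : IsFiniteMeasure P := by
    constructor
    show (∑ i : Fin 4, (κ i).map (fun x => (i, x))) univ < ⊤
    rw [Measure.finset_sum_apply]
    rw [ENNReal.sum_lt_top]
    intro i _
    rw [Measure.map_apply (hmk i) MeasurableSet.univ]
    exact measure_lt_top _ _
  have hPint : ∀ u : Fin 4 × ℝ → ℂ, Measurable u → (∃ C, ∀ x, ‖u x‖ ≤ C) →
      ∫ ω, u ω ∂P = ∑ i, ∫ x, u (i, x) ∂(κ i) := by
    intro u hu hub
    obtain ⟨C, hC⟩ := hub
    show ∫ ω, u ω ∂(∑ i : Fin 4, (κ i).map (fun x => (i, x))) = _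
    rw [integral_finset_sum_measure]
    · apply Finset.sum_congr rfl
      intro i _
      rw [integral_map (hmk i).aemeasurable hu.aestronglyMeasurable]
    · intro i _
      have : IsFiniteMeasure ((κ i).map (fun x : ℝ => (i, x))) := Measure.isFiniteMeasure_map _ _
      exact Integrable.of_bound hu.aestronglyMeasurable C (Eventually.of_forall hC)
  let F : ℝ → ℂ := fun ξ => ∫ ω, ch (ξ * ω.2) * cc ω.1 ∂P
  have hccm : Measurable (fun ω : Fin 4 × ℝ => cc ω.1) :=
    (measurable_of_finite cc).comp measurable_fst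
  have hccb : ∀ i, ‖cc i‖ ≤ 1 := by
    intro i
    fin_cases i <;> simp [cc]
  have hrep : HasRep P (fun ω => ω.2) (fun ω => cc ω.1) F := by
    refine ⟨measurable_snd, ?_, fun ξ => rfl⟩
    exact Integrable.of_bound hccm.aestronglyMeasurable 1 (Eventually.of_forall fun ω => hccb _)
  refine ⟨Fin 4 × ℝ, inferInstance, P, hPf, fun ω => ω.2, fun ω => cc ω.1, F, hrep, ?_⟩
  -- f is measurable and bounded
  have hfm : StronglyMeasurable f := by
    apply stronglyMeasurable_of_tendsto atTop (f := fun n => 𝓕 (g n))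
    · intro n
      apply Continuous.stronglyMeasurable
      exact continuous_fourier (hg n)
    · rw [tendsto_pi_nhds]
      exact hf
  have hgb : ∀ n ξ, ‖𝓕 (g n) ξ‖ ≤ M := by
    intro n ξ
    rw [fourier_eq]
    refine (norm_integral_le_integral_norm _).trans (le_trans (le_of_eq ?_) (hM n))
    congr 1
    funext x
    rw [norm_mul, norm_ch, one_mul]
  have hfb : ∀ ξ, ‖f ξ‖ ≤ M := fun ξ => le_of_tendsto (hf ξ).norm (Eventually.of_forall fun n => hgb n ξ)
  apply ae_eq_of_forall_setIntegral_eq_of_sigmaFinite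
  · intro s _ hs
    have : IsFiniteMeasure (volume.restrict s) := ⟨by simpa using hs⟩
    exact Integrable.of_bound hrep.continuous.aestronglyMeasurable _ (Eventually.of_forall hrep.norm_le)
  · intro s _ hs
    have : IsFiniteMeasure (volume.restrict s) := ⟨by simpa using hs⟩
    exact Integrable.of_bound hfm.aestronglyMeasurable M (Eventually.of_forall hfb)
  · intro s hsm hs
    have hfin : IsFiniteMeasure (volume.restrict s) := ⟨by simpa using hs⟩
    -- test function
    set ψ : ℝ → ℂ := fun x => ∫ ξ in s, ch (ξ * x) with hψ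
    have hind : Integrable (s.indicator (fun _ => (1:ℂ))) :=
      (integrable_indicator_iff hsm).mpr (integrableOn_const hs.ne)
    have hψF : ψ = 𝓕 (s.indicator (fun _ => (1:ℂ))) := by
      funext x
      rw [fourier_eq, hψ]
      show ∫ ξ in s, ch (ξ * x) = _
      rw [← integral_indicator hsm]
      congr 1
      funext ξ
      by_cases hξ : ξ ∈ s
      · rw [indicator_of_mem hξ, indicator_of_mem hξ, mul_one, mul_comm]
      · rw [indicator_of_notMem hξ, indicator_of_notMem hξ, mul_zero]
    have hψc : Continuous ψ := by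
      rw [hψF]
      exact continuous_fourier hind
    have hψ0 : Tendsto ψ (cocompact ℝ) (𝓝 0) := by
      rw [hψF]
      exact Real.zero_at_infty_fourier _
    have hψb : ∀ x, ‖ψ x‖ ≤ volume.real s := by
      intro x
      refine (norm_setIntegral_le_of_norm_le_const hs (fun ξ _ => (norm_ch _).le)).trans ?_
      rw [one_mul]
    have hlim := hC0 ψ hψc hψ0 ⟨_, hψb⟩
    -- Fubini
    have hF1 : ∀ n, ∫ x, ψ x * g n x = ∫ ξ in s, 𝓕 (g n) ξ := by
      intro n
      have e1 : ∫ ξ in s, 𝓕 (g n) ξ = ∫ ξ in s, ∫ x, ch (ξ * x) * g n x := by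
        congr 1
        funext ξ
        rw [fourier_eq]
      rw [e1, integral_integral_swap]
      · congr 1
        funext x
        rw [hψ]
        show (∫ ξ in s, ch (ξ * x)) * g n x = _
        rw [integral_mul_const]
      · have h2 : Integrable (fun q : ℝ × ℝ => g n q.2) ((volume.restrict s).prod volume) :=
          (hg n).comp_snd _
        have h3 : Measurable (fun q : ℝ × ℝ => q.1 * q.2) := by fun_prop
        exact integrable_ch_mul h3 h2
    have hF2 : ∫ ξ in s, F ξ = ∑ i, cc i * ∫ x, ψ x ∂(κ i) := by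
      have e1 : ∫ ξ in s, F ξ = ∫ ω, (∫ ξ in s, ch (ξ * ω.2)) * cc ω.1 ∂P := by
        show ∫ ξ in s, ∫ ω, ch (ξ * ω.2) * cc ω.1 ∂P = _
        rw [integral_integral_swap]
        · congr 1
          funext ω
          rw [integral_mul_const]
        · have h2 : Integrable (fun q : ℝ × (Fin 4 × ℝ) => cc q.2.1) ((volume.restrict s).prod P) :=
            hrep.2.1.comp_snd _
          have h3 : Measurable (fun q : ℝ × (Fin 4 × ℝ) => q.1 * q.2.2) := by fun_prop
          exact integrable_ch_mul h3 h2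
      rw [e1, hPint]
      · apply Finset.sum_congr rfl
        intro i _
        show ∫ x, ψ x * cc i ∂(κ i) = _
        rw [integral_mul_const, mul_comm]
      · have : Measurable (fun ω : Fin 4 × ℝ => ψ ω.2) := hψc.measurable.comp measurable_snd
        exact this.mul hccm
      · refine ⟨volume.real s * 1, fun ω => ?_⟩
        rw [norm_mul]
        exact mul_le_mul (hψb _) (hccb _) (norm_nonneg _) measureReal_nonneg
    have hlim2 : Tendsto (fun n => ∫ ξ in s, 𝓕 (g n) ξ) atTop (𝓝 (∫ ξ in s, f ξ)) := by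
      apply tendsto_integral_of_dominated_convergence (fun _ => M)
      · intro n
        exact (continuous_fourier (hg n)).aestronglyMeasurable
      · exact integrable_const M
      · intro n
        exact Eventually.of_forall fun ξ => hgb n ξ
      · exact Eventually.of_forall fun ξ => hf ξ
    have hUU : ((UU : Ultrafilter ℕ) : Filter ℕ) ≤ atTop := by
      rw [← Nat.cofinite_eq_atTop]
      exact hyperfilter_le_cofinite
    have hlim3 := hlim2.mono_left hUU
    simp_rw [← hF1] at hlim3
    rw [hF2]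
    exact tendsto_nhds_unique hlim hlim3

end Pool.Agent.J4H86.AS
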