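import Pool.Agent.J4H86.AS.Rep

/-!
# Limits of Fourier transforms of bounded sequences in `L¹` are Fourier-Stieltjes transforms
-/

set_option autoImplicit false

open MeasureTheory Filter Topology Set
open scoped ENNReal CompactlySupported

namespace Pool.Agent.J4H86.AS

/-- the ultrafilter. -/
noncomputable abbrev UU : Ultrafilter ℕ := hyperfilter ℕ

theorem exists_ulim {u : ℕ → ℝ} {B : ℝ} (hu : ∀ n, |u n| ≤ B) :
    ∃ a : ℝ, Tendsto u (UU : Filter ℕ) (𝓝 a) := by
  have hK : IsCompact (Icc (-B) B) := isCompact_Icc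
  have h1 : ((UU.map u : Ultrafilter ℝ) : Filter ℝ) ≤ 𝓟 (Icc (-B) B) := by
    rw [le_principal_iff]
    have : u ⁻¹' (Icc (-B) B) = univ := by
      ext n
      simp only [mem_preimage, mem_univ, iff_true]
      exact abs_le.mp (hu n)
    show u ⁻¹' (Icc (-B) B) ∈ (UU : Filter ℕ)
    rw [this]
    exact univ_mem
  obtain ⟨a, -, ha⟩ := hK.ultrafilter_le_nhds _ h1
  exact ⟨a, ha⟩

/-- cutoff function -/
noncomputable def cut (R : ℝ) : C_c(ℝ, ℝ) where
  toFun x := max 0 (min 1 (R + 1 - |x|))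
  continuous_toFun := by fun_prop
  hasCompactSupport' := by
    apply HasCompactSupport.intro (isCompact_closedBall (0:ℝ) (R + 1))
    intro x hx
    rw [Metric.mem_closedBall, Real.dist_eq, sub_zero, not_le] at hx
    apply max_eq_left
    exact (min_le_right _ _).trans (by linarith)

theorem cut_apply (R x : ℝ) : cut R x = max 0 (min 1 (R + 1 - |x|)) := rfl

theorem cut_nonneg (R x : ℝ) : 0 ≤ cut R x := le_max_left _ _

theorem cut_le_one (R x : ℝ) : cut R x ≤ 1 := max_le zero_le_one (min_le_left _ _)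

theorem cut_eq_one {R x : ℝ} (hx : |x| ≤ R) : cut R x = 1 := by
  rw [cut_apply, min_eq_left (by linarith), max_eq_right zero_le_one]

theorem Cc_bdd (k : C_c(ℝ, ℝ)) : ∃ C, 0 ≤ C ∧ ∀ x, |k x| ≤ C := by
  obtain ⟨C, hC⟩ := k.continuous.bounded_above_of_compact_support k.hasCompactSupport
  exact ⟨C, (norm_nonneg _).trans (hC 0), hC⟩

theorem int_bd {p : ℝ → ℝ} (hp0 : ∀ x, 0 ≤ p x) (hp : Integrable p) {M : ℝ} (hM : ∫ x, p x ≤ M)
    {k : ℝ → ℂ} (hk : AEStronglyMeasurable k) {C : ℝ} (hC0 : 0 ≤ C) (hC : ∀ x, ‖k x‖ ≤ C) :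
    ‖∫ x, k x * (p x : ℂ)‖ ≤ C * M := by
  calc ‖∫ x, k x * (p x : ℂ)‖ ≤ ∫ x, ‖k x * (p x : ℂ)‖ := norm_integral_le_integral_norm _
    _ ≤ ∫ x, C * p x := by
        apply integral_mono_of_nonneg (Eventually.of_forall fun x => norm_nonneg _) (hp.const_mul C)
        refine Eventually.of_forall fun x => ?_
        show ‖k x * (p x : ℂ)‖ ≤ C * p x
        rw [norm_mul, Complex.norm_real, Real.norm_eq_abs, abs_of_nonneg (hp0 x)]
        exact mul_le_mul_of_nonneg_right (hC x) (hp0 x)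
    _ = C * ∫ x, p x := integral_const_mul _ _
    _ ≤ C * M := mul_le_mul_of_nonneg_left hM hC0

theorem int_bd' {p : ℝ → ℝ} (hp0 : ∀ x, 0 ≤ p x) (hp : Integrable p) {M : ℝ} (hM : ∫ x, p x ≤ M)
    {k : ℝ → ℝ} {C : ℝ} (hC0 : 0 ≤ C) (hC : ∀ x, |k x| ≤ C) :
    |∫ x, k x * p x| ≤ C * M := by
  calc |∫ x, k x * p x| ≤ ∫ x, |k x * p x| := abs_integral_le_integral_abs
    _ ≤ ∫ x, C * p x := by
        apply integral_mono_of_nonneg (Eventually.of_forall fun x => abs_nonneg _) (hp.const_mul C)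
        refine Eventually.of_forall fun x => ?_
        show |k x * p x| ≤ C * p x
        rw [abs_mul, abs_of_nonneg (hp0 x)]
        exact mul_le_mul_of_nonneg_right (hC x) (hp0 x)
    _ = C * ∫ x, p x := integral_const_mul _ _
    _ ≤ C * M := mul_le_mul_of_nonneg_left hM hC0

/-- Vague limit along the ultrafilter. -/
theorem exists_measure (p : ℕ → ℝ → ℝ) (hp0 : ∀ n x, 0 ≤ p n x) (hp : ∀ n, Integrable (p n))
    {M : ℝ} (hM : ∀ n, ∫ x, p n x ≤ M) :
    ∃ κ : Measure ℝ, IsFiniteMeasure κ ∧ ∀ k : C_c(ℝ, ℝ),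
      Tendsto (fun n => ∫ x, k x * p n x) (UU : Filter ℕ) (𝓝 (∫ x, k x ∂κ)) := by
  have hM0 : 0 ≤ M := (integral_nonneg (hp0 0)).trans (hM 0)
  have hint : ∀ (k : C_c(ℝ, ℝ)) n, Integrable (fun x => k x * p n x) := by
    intro k n
    obtain ⟨C, hC0, hC⟩ := Cc_bdd k
    exact (hp n).bdd_mul (c := C) k.continuous.aestronglyMeasurable (Eventually.of_forall hC)
  have hex : ∀ k : C_c(ℝ, ℝ), ∃ a : ℝ, Tendsto (fun n => ∫ x, k x * p n x) (UU : Filter ℕ) (𝓝 a) := by
    intro k
    obtain ⟨C, hC0, hC⟩ := Cc_bdd k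
    exact exists_ulim (fun n => int_bd' (hp0 n) (hp n) (hM n) hC0 hC)
  choose L hL using hex
  let Λ₀ : C_c(ℝ, ℝ) →ₗ[ℝ] ℝ :=
    { toFun := L
      map_add' := by
        intro k l
        have h1 := (hL k).add (hL l)
        have h2 : (fun n => ∫ x, (k + l) x * p n x) = fun n => (∫ x, k x * p n x) + ∫ x, l x * p n x := by
          funext n
          rw [← integral_add (hint k n) (hint l n)]
          congr 1
          funext x
          show (k x + l x) * p n x = _
          ring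
        have h3 := hL (k + l)
        rw [h2] at h3
        exact tendsto_nhds_unique h3 h1
      map_smul' := by
        intro c k
        have h1 := (hL k).const_mul c
        have h2 : (fun n => ∫ x, (c • k) x * p n x) = fun n => c * ∫ x, k x * p n x := by
          funext n
          rw [← integral_const_mul]
          congr 1
          funext x
          show (c * k x) * p n x = _
          ring
        have h3 := hL (c • k)
        rw [h2] at h3
        exact tendsto_nhds_unique h3 h1 }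
  let Λ : C_c(ℝ, ℝ) →ₚ[ℝ] ℝ := PositiveLinearMap.mk₀ Λ₀ (by
    intro k hk
    apply ge_of_tendsto (hL k)
    refine Eventually.of_forall fun n => ?_
    apply integral_nonneg
    intro x
    exact mul_nonneg (hk x) (hp0 n x))
  have hΛ : ∀ k, Λ k = L k := fun k => rfl
  refine ⟨RealRMK.rieszMeasure Λ, ?_, ?_⟩
  · have hball : ∀ n : ℕ, RealRMK.rieszMeasure Λ (Metric.closedBall (0:ℝ) n) ≤ ENNReal.ofReal M := by
      intro n
      refine (RealRMK.rieszMeasure_le_of_eq_one Λ (f := cut n) (cut_nonneg n)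
        (isCompact_closedBall _ _) (fun x hx => ?_)).trans ?_
      · apply cut_eq_one
        simpa [Real.dist_eq] using hx
      · apply ENNReal.ofReal_le_ofReal
        rw [hΛ]
        apply le_of_tendsto (hL (cut n))
        refine Eventually.of_forall fun m => ?_
        have := int_bd' (hp0 m) (hp m) (hM m) zero_le_one (k := cut n) (fun x => by
          rw [abs_of_nonneg (cut_nonneg n x)]; exact cut_le_one n x)
        rw [one_mul] at this
        exact (le_abs_self _).trans this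
    constructor
    have hmono : Monotone (fun n : ℕ => Metric.closedBall (0:ℝ) n) := by
      intro a b hab
      exact Metric.closedBall_subset_closedBall (by exact_mod_cast hab)
    have hun : (⋃ n : ℕ, Metric.closedBall (0:ℝ) n) = univ := by
      rw [eq_univ_iff_forall]
      intro x
      obtain ⟨n, hn⟩ := exists_nat_ge |x|
      rw [mem_iUnion]
      exact ⟨n, by simpa [Real.dist_eq] using hn⟩
    rw [← hun]
    have h4 := tendsto_measure_iUnion_atTop (μ := RealRMK.rieszMeasure Λ) hmono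
    have h5 : RealRMK.rieszMeasure Λ (⋃ n : ℕ, Metric.closedBall (0:ℝ) n) ≤ ENNReal.ofReal M :=
      le_of_tendsto' h4 (fun n => hball n)
    exact lt_of_le_of_lt h5 ENNReal.ofReal_lt_top
  · intro k
    rw [RealRMK.integral_rieszMeasure]
    exact hL k

/-- Extension to continuous functions vanishing at infinity. -/
theorem tendsto_C0 {p : ℕ → ℝ → ℝ} (hp0 : ∀ n x, 0 ≤ p n x) (hp : ∀ n, Integrable (p n))
    {M : ℝ} (hM : ∀ n, ∫ x, p n x ≤ M) {κ : Measure ℝ} [IsFiniteMeasure κ]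
    (hκ : ∀ k : C_c(ℝ, ℝ), Tendsto (fun n => ∫ x, k x * p n x) (UU : Filter ℕ) (𝓝 (∫ x, k x ∂κ)))
    {ψ : ℝ → ℂ} (hψ : Continuous ψ) (hψ0 : Tendsto ψ (cocompact ℝ) (𝓝 0)) :
    Tendsto (fun n => ∫ x, ψ x * (p n x : ℂ)) (UU : Filter ℕ) (𝓝 (∫ x, ψ x ∂κ)) := by
  have hM0 : 0 ≤ M := (integral_nonneg (hp0 0)).trans (hM 0)
  -- bounded
  obtain ⟨C, hC⟩ : ∃ C, ∀ x, ‖ψ x‖ ≤ C := by
    have h1 : ∀ᶠ x in cocompact ℝ, ‖ψ x‖ < 1 := by
      have := (tendsto_zero_iff_norm_tendsto_zero.mp hψ0)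
      exact (tendsto_order.1 this).2 1 one_pos
    obtain ⟨K, hK, hKs⟩ := mem_cocompact.mp h1
    obtain ⟨C, hC⟩ := hK.exists_bound_of_continuousOn hψ.continuousOn
    refine ⟨max C 1, fun x => ?_⟩
    by_cases hx : x ∈ K
    · exact (hC x hx).trans (le_max_left _ _)
    · exact (le_of_lt (hKs hx)).trans (le_max_right _ _)
  have hC0 : 0 ≤ C := (norm_nonneg _).trans (hC 0)
  -- compactly supported functions
  have hcs : ∀ R : ℝ, Tendsto (fun n => ∫ x, (ψ x * (cut R x : ℂ)) * (p n x : ℂ)) (UU : Filter ℕ)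
      (𝓝 (∫ x, ψ x * (cut R x : ℂ) ∂κ)) := by
    intro R
    have hsupp : ∀ u : ℝ → ℝ, HasCompactSupport (fun x => u x * cut R x) := fun u =>
      (cut R).hasCompactSupport.mul_left
    let kr : C_c(ℝ, ℝ) := ⟨⟨fun x => (ψ x).re * cut R x, by
      have := (cut R).continuous
      fun_prop⟩, hsupp _⟩
    let ki : C_c(ℝ, ℝ) := ⟨⟨fun x => (ψ x).im * cut R x, by
      have := (cut R).continuous
      fun_prop⟩, hsupp _⟩
    have hr := hκ kr
    have hi := hκ ki
    have hkr : ∀ x, kr x = (ψ x).re * cut R x := fun x => rfl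
    have hki : ∀ x, ki x = (ψ x).im * cut R x := fun x => rfl
    have hdec : ∀ x, ψ x * (cut R x : ℂ) = (kr x : ℂ) + (ki x : ℂ) * Complex.I := by
      intro x
      rw [hkr, hki]
      push_cast
      conv_lhs => rw [← Complex.re_add_im (ψ x)]
      ring
    have hkint : ∀ (k : C_c(ℝ, ℝ)) n, Integrable (fun x => k x * p n x) := by
      intro k n
      obtain ⟨C, hC0, hC⟩ := Cc_bdd k
      exact (hp n).bdd_mul (c := C) k.continuous.aestronglyMeasurable (Eventually.of_forall hC)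
    have hkint' : ∀ (k : C_c(ℝ, ℝ)), Integrable (fun x => k x) κ := by
      intro k
      obtain ⟨C, hC0, hC⟩ := Cc_bdd k
      exact Integrable.of_bound k.continuous.aestronglyMeasurable C (Eventually.of_forall hC)
    have e1 : ∀ n, ∫ x, (ψ x * (cut R x : ℂ)) * (p n x : ℂ) =
        ((∫ x, kr x * p n x : ℝ) : ℂ) + ((∫ x, ki x * p n x : ℝ) : ℂ) * Complex.I := by
      intro n
      rw [← integral_complex_ofReal, ← integral_complex_ofReal, ← integral_mul_const, ← integral_add]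
      · congr 1
        funext x
        rw [hdec]
        push_cast
        ring
      · exact (hkint kr n).ofReal
      · exact (hkint ki n).ofReal.mul_const _
    have e2 : ∫ x, ψ x * (cut R x : ℂ) ∂κ =
        ((∫ x, kr x ∂κ : ℝ) : ℂ) + ((∫ x, ki x ∂κ : ℝ) : ℂ) * Complex.I := by
      rw [← integral_complex_ofReal, ← integral_complex_ofReal, ← integral_mul_const, ← integral_add]
      · congr 1
        funext x
        rw [hdec]
      · exact (hkint' kr).ofReal
      · exact (hkint' ki).ofReal.mul_const _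
    simp_rw [e1]
    rw [e2]
    exact ((Complex.continuous_ofReal.tendsto _).comp hr).add
      (((Complex.continuous_ofReal.tendsto _).comp hi).mul_const _)
  rw [Metric.tendsto_nhds]
  intro ε hε
  set m := (κ.real univ) with hm
  have hm0 : 0 ≤ m := measureReal_nonneg
  set η := ε / (3 * (M + m + 1)) with hη
  have hden : 0 < 3 * (M + m + 1) := by positivity
  have hη0 : 0 < η := by positivity
  -- choose R
  obtain ⟨R, hR⟩ : ∃ R : ℝ, ∀ x, R < |x| → ‖ψ x‖ ≤ η := by
    have h1 : ∀ᶠ x in cocompact ℝ, ‖ψ x‖ < η := by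
      have := (tendsto_zero_iff_norm_tendsto_zero.mp hψ0)
      exact (tendsto_order.1 this).2 η hη0
    obtain ⟨K, hK, hKs⟩ := mem_cocompact.mp h1
    obtain ⟨R, hR⟩ := hK.isBounded.exists_norm_le
    refine ⟨R, fun x hx => ?_⟩
    have : x ∉ K := fun hxK => absurd (hR x hxK) (not_le.mpr hx)
    exact le_of_lt (hKs this)
  have hdiff : ∀ x, ‖ψ x - ψ x * (cut R x : ℂ)‖ ≤ η := by
    intro x
    by_cases hx : |x| ≤ R
    · rw [cut_eq_one hx]
      simp [hη0.le]
    · push Not at hx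
      have e : ψ x - ψ x * (cut R x : ℂ) = ψ x * ((1 - cut R x : ℝ) : ℂ) := by push_cast; ring
      rw [e, norm_mul, Complex.norm_real, Real.norm_eq_abs, abs_of_nonneg (by linarith [cut_le_one R x])]
      calc ‖ψ x‖ * (1 - cut R x) ≤ η * 1 := by
            apply mul_le_mul (hR x hx) (by linarith [cut_nonneg R x]) (by linarith [cut_le_one R x]) hη0.le
        _ = η := mul_one _
  have hcutc := (cut R).continuous
  have hmeas : Continuous (fun x => ψ x * (cut R x : ℂ)) := by fun_prop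
  have hmeas2 : Continuous (fun x => ψ x - ψ x * (cut R x : ℂ)) := by fun_prop
  have hbd2 : ∀ x, ‖ψ x * (cut R x : ℂ)‖ ≤ C := by
    intro x
    rw [norm_mul, Complex.norm_real, Real.norm_eq_abs, abs_of_nonneg (cut_nonneg R x)]
    calc ‖ψ x‖ * cut R x ≤ C * 1 := mul_le_mul (hC x) (cut_le_one R x) (cut_nonneg R x) hC0
      _ = C := mul_one _
  have hsmall : ∀ n, ‖(∫ x, ψ x * (p n x : ℂ)) - ∫ x, (ψ x * (cut R x : ℂ)) * (p n x : ℂ)‖ ≤ η * M := by
    intro n
    rw [← integral_sub]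
    · have : (fun x => ψ x * (p n x : ℂ) - ψ x * (cut R x : ℂ) * (p n x : ℂ)) =
          fun x => (ψ x - ψ x * (cut R x : ℂ)) * (p n x : ℂ) := by
        funext x; ring
      rw [this]
      exact int_bd (hp0 n) (hp n) (hM n) hmeas2.aestronglyMeasurable hη0.le hdiff
    · exact (hp n).ofReal.bdd_mul (c := C) hψ.aestronglyMeasurable (Eventually.of_forall hC)
    · exact (hp n).ofReal.bdd_mul (c := C) hmeas.aestronglyMeasurable (Eventually.of_forall hbd2)
  have hsmall2 : ‖(∫ x, ψ x ∂κ) - ∫ x, ψ x * (cut R x : ℂ) ∂κ‖ ≤ η * m := by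
    rw [← integral_sub]
    · refine (norm_integral_le_of_norm_le_const (Eventually.of_forall hdiff)).trans (le_of_eq rfl)
    · exact Integrable.of_bound hψ.aestronglyMeasurable C (Eventually.of_forall hC)
    · exact Integrable.of_bound hmeas.aestronglyMeasurable C (Eventually.of_forall hbd2)
  have hev := (Metric.tendsto_nhds.mp (hcs R)) (ε / 3) (by positivity)
  filter_upwards [hev] with n hn
  rw [dist_eq_norm] at hn ⊢
  have hsum : (∫ x, ψ x * (p n x : ℂ)) - ∫ x, ψ x ∂κ =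
      ((∫ x, ψ x * (p n x : ℂ)) - ∫ x, (ψ x * (cut R x : ℂ)) * (p n x : ℂ)) +
      ((∫ x, (ψ x * (cut R x : ℂ)) * (p n x : ℂ)) - ∫ x, ψ x * (cut R x : ℂ) ∂κ) -
      ((∫ x, ψ x ∂κ) - ∫ x, ψ x * (cut R x : ℂ) ∂κ) := by ring
  rw [hsum]
  have hηM : η * (M + m + 1) = ε / 3 := by
    rw [hη]; field_simp
  have h7 : η * M + η * m < ε / 3 + ε / 3 := by
    have : η * M + η * m < η * (M + m + 1) := by
      have : η * (M + m + 1) = η * M + η * m + η := by ring
      linarith
    linarith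
  calc _ ≤ ‖((∫ x, ψ x * (p n x : ℂ)) - ∫ x, (ψ x * (cut R x : ℂ)) * (p n x : ℂ)) +
      ((∫ x, (ψ x * (cut R x : ℂ)) * (p n x : ℂ)) - ∫ x, ψ x * (cut R x : ℂ) ∂κ)‖ +
      ‖(∫ x, ψ x ∂κ) - ∫ x, ψ x * (cut R x : ℂ) ∂κ‖ := norm_sub_le _ _
    _ ≤ (‖(∫ x, ψ x * (p n x : ℂ)) - ∫ x, (ψ x * (cut R x : ℂ)) * (p n x : ℂ)‖ +
      ‖(∫ x, (ψ x * (cut R x : ℂ)) * (p n x : ℂ)) - ∫ x, ψ x * (cut R x : ℂ) ∂κ‖) +
      ‖(∫ x, ψ x ∂κ) - ∫ x, ψ x * (cut R x : ℂ) ∂κ‖ := by
        gcongr
        exact norm_add_le _ _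
    _ < ε := by
        have a1 := hsmall n
        linarith

end Pool.Agent.J4H86.AS
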