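import Pool.Agent.J4H86.AS.Zero

/-!
# The abstract contradiction
-/

set_option autoImplicit false

open MeasureTheory Filter Topology Set
open scoped ENNReal

namespace Pool.Agent.J4H86.AS

/-- Fourier-Stieltjes transforms. -/
def IsFS (f : ℝ → ℂ) : Prop :=
  ∃ (Ω : Type) (_ : MeasurableSpace Ω) (P : Measure Ω) (_ : IsFiniteMeasure P) (X : Ω → ℝ)
      (h : Ω → ℂ), HasRep P X h f

/-- Fourier-Bohr coefficient. -/
noncomputable def coef (f : ℝ → ℂ) (z : ℝ) : ℂ :=
  limUnder atTop (fun n => mean (fun ξ => f ξ * ch (-(ξ * z))) n)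

theorem coef_eq {Ω : Type} [MeasurableSpace Ω] {P : Measure Ω} [IsFiniteMeasure P] {X : Ω → ℝ}
    {h : Ω → ℂ} {f : ℝ → ℂ} (H : HasRep P X h f) (z : ℝ) : coef f z = cf P X h z :=
  (H.mean_tendsto z).limUnder_eq

theorem IsFS.tendsto {f : ℝ → ℂ} (hf : IsFS f) (z : ℝ) :
    Tendsto (fun n => mean (fun ξ => f ξ * ch (-(ξ * z))) n) atTop (𝓝 (coef f z)) := by
  obtain ⟨Ω, _, P, _, X, h, H⟩ := hf
  rw [coef_eq H]
  exact H.mean_tendsto z

theorem IsFS.mul {f g : ℝ → ℂ} (hf : IsFS f) (hg : IsFS g) : IsFS (fun ξ => f ξ * g ξ) := by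
  obtain ⟨Ω, _, P, _, X, h, H⟩ := hf
  obtain ⟨Ω', _, Q, _, Y, k, H'⟩ := hg
  exact ⟨_, _, _, inferInstance, _, _, H.mul H'⟩

theorem IsFS.translate {f : ℝ → ℂ} (hf : IsFS f) (s : ℝ) : IsFS (fun ξ => f (ξ + s)) := by
  obtain ⟨Ω, _, P, _, X, h, H⟩ := hf
  exact ⟨_, _, _, inferInstance, _, _, H.translate s⟩

theorem IsFS.reflect {f : ℝ → ℂ} (hf : IsFS f) : IsFS (fun ξ => f (-ξ)) := by
  obtain ⟨Ω, _, P, _, X, h, H⟩ := hf
  exact ⟨_, _, _, inferInstance, _, _, H.reflect⟩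

theorem IsFS.continuous {f : ℝ → ℂ} (hf : IsFS f) : Continuous f := by
  obtain ⟨Ω, _, P, _, X, h, H⟩ := hf
  exact H.continuous

theorem coef_reflect {f : ℝ → ℂ} (hf : IsFS f) (z : ℝ) : coef (fun ξ => f (-ξ)) z = coef f (-z) := by
  obtain ⟨Ω, _, P, _, X, h, H⟩ := hf
  rw [coef_eq H.reflect, coef_eq H, cf_reflect]

theorem coef_sub_le {f g : ℝ → ℂ} (hf : IsFS f) (hg : IsFS g) {C : ℝ} (hC : ∀ ξ, ‖f ξ - g ξ‖ ≤ C)
    (z : ℝ) : ‖coef f z - coef g z‖ ≤ C := by
  obtain ⟨Ω, _, P, _, X, h, H⟩ := hf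
  obtain ⟨Ω', _, Q, _, Y, k, H'⟩ := hg
  rw [coef_eq H, coef_eq H']
  exact cf_sub_le H H' hC z

theorem countable_coef {f : ℝ → ℂ} (hf : IsFS f) : {z | coef f z ≠ 0}.Countable := by
  obtain ⟨Ω, _, P, _, X, h, H⟩ := hf
  have : {z | coef f z ≠ 0} = {z | cf P X h z ≠ 0} := by
    ext z
    simp only [mem_setOf_eq, coef_eq H]
  rw [this]
  exact countable_cf H.1

theorem coef_mul_exists {f g : ℝ → ℂ} (hf : IsFS f) (hg : IsFS g) {z : ℝ}
    (h0 : coef (fun ξ => f ξ * g ξ) z ≠ 0) : ∃ x, coef f x ≠ 0 ∧ coef g (z - x) ≠ 0 := by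
  obtain ⟨Ω, _, P, _, X, h, H⟩ := hf
  obtain ⟨Ω', _, Q, _, Y, k, H'⟩ := hg
  rw [coef_eq (H.mul H')] at h0
  obtain ⟨x, h1, h2⟩ := exists_coef H.1 H.2.1 H'.1 H'.2.1 z h0
  exact ⟨x, by rwa [coef_eq H], by rwa [coef_eq H']⟩

theorem coef_mul_zero {f g : ℝ → ℂ} (hf : IsFS f) (hg : IsFS g) {z : ℝ}
    (h0 : ∀ s : ℝ, coef (fun ξ => f (ξ + s) * g ξ) z = 0) (x : ℝ) : coef f x * coef g (z - x) = 0 := by
  obtain ⟨Ω, _, P, _, X, h, H⟩ := hf
  obtain ⟨Ω', _, Q, _, Y, k, H'⟩ := hg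
  rw [coef_eq H, coef_eq H']
  apply prod_coef_zero H.1 H.2.1 H'.1 H'.2.1 z _ x
  intro s
  rw [← h0 s]
  exact (coef_eq ((H.translate s).mul H') z).symm

theorem coef_one : coef (fun _ => (1:ℂ)) 0 = 1 := by
  unfold coef
  apply Tendsto.limUnder_eq
  have : (fun n => mean (fun ξ => (1:ℂ) * ch (-(ξ * 0))) n) = fun _ => (1:ℂ) := by
    funext n
    have : (fun ξ : ℝ => (1:ℂ) * ch (-(ξ * 0))) = fun _ => (1:ℂ) := by
      funext ξ
      rw [mul_zero, neg_zero, ch_zero, mul_one]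
    rw [this, mean_const]
  rw [this]
  exact tendsto_const_nhds

section

variable {Θ : ℝ → ℂ}

/-- uniform continuity of the exponent. -/
theorem unif_exponent (hc : Continuous Θ) {m : ℝ} (him : ∀ ξ, |(Θ ξ).im| ≤ m)
    (hrep : IsFS (fun ξ => Complex.exp (Complex.I * ((1/2 : ℝ) : ℂ) * Θ ξ))) (η : ℝ) (hη : 0 < η) :
    ∃ δ > 0, ∀ s : ℝ, |s| < δ → ∀ ξ, ‖Θ (ξ + s) - Θ ξ‖ ≤ η := by
  obtain ⟨Ω, _, P, _, X, h, H⟩ := hrep
  -- work with a small constant
  set κ : ℝ := min (η / 4) (1 / 8) with hκ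
  have hκ0 : 0 < κ := lt_min (by positivity) (by norm_num)
  have hκ8 : κ ≤ 1 / 8 := min_le_right _ _
  have hκη : κ ≤ η / 4 := min_le_left _ _
  obtain ⟨δ, hδ, hF⟩ := H.unif (κ * Real.exp (-m)) (by positivity)
  refine ⟨δ, hδ, fun s hs ξ => ?_⟩
  -- the exponent difference
  set w : ℝ → ℂ := fun r => Complex.I * ((1/2 : ℝ) : ℂ) * (Θ (ξ + r) - Θ ξ) with hw
  have hwc : Continuous w := by
    rw [hw]; fun_prop
  have hw0 : w 0 = 0 := by simp [hw]
  have hexp : ∀ r, |r| < δ → ‖Complex.exp (w r) - 1‖ ≤ κ := by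
    intro r hr
    have h1 := hF r hr ξ
    have h2 := (norm_exp_ge (him ξ) (y := 1/2) (by rw [abs_of_pos]; norm_num; norm_num)).1
    have h3 : Complex.exp (Complex.I * ((1/2 : ℝ) : ℂ) * Θ (ξ + r)) - Complex.exp (Complex.I * ((1/2 : ℝ) : ℂ) * Θ ξ)
      = Complex.exp (Complex.I * ((1/2 : ℝ) : ℂ) * Θ ξ) * (Complex.exp (w r) - 1) := by
      rw [mul_sub, ← Complex.exp_add, mul_one]
      congr 2
      rw [hw]
      ring
    have h4 : ‖Complex.exp (Complex.I * ((1/2 : ℝ) : ℂ) * Θ ξ)‖ * ‖Complex.exp (w r) - 1‖ ≤ κ * Real.exp (-m) := by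
      rw [← norm_mul, ← h3]
      exact h1
    have h5 : Real.exp (-m) * ‖Complex.exp (w r) - 1‖ ≤ κ * Real.exp (-m) :=
      (mul_le_mul_of_nonneg_right h2 (norm_nonneg _)).trans h4
    have h6 := Real.exp_pos (-m)
    nlinarith
  -- lower bound for exponentials
  have hlow : ∀ z : ℂ, ‖z‖ ≤ 1/4 → ‖z‖ / 2 ≤ ‖Complex.exp z - 1‖ := by
    intro z hz
    have h1 : ‖Complex.exp z - 1 - z‖ ≤ ‖z‖ ^ 2 := Complex.norm_exp_sub_one_sub_id_le (by linarith)
    have h2 : ‖z‖ ≤ ‖Complex.exp z - 1‖ + ‖Complex.exp z - 1 - z‖ := by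
      calc ‖z‖ = ‖(Complex.exp z - 1) - (Complex.exp z - 1 - z)‖ := by congr 1; ring
        _ ≤ _ := norm_sub_le _ _
    nlinarith [norm_nonneg z]
  -- connectedness
  have hsmall : ‖w s‖ ≤ 2 * κ := by
    by_contra hcon
    push Not at hcon
    -- the value just above
    obtain ⟨ρ, hρ1, hρ2⟩ : ∃ ρ, 2 * κ < ρ ∧ ρ ≤ min ‖w s‖ (1/4) ∧ True := by
      rcases lt_or_ge (2 * κ) (min ‖w s‖ (1/4)) with h1 | h1
      · exact ⟨min ‖w s‖ (1/4), h1, le_rfl, trivial⟩
      · exfalso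
        rcases min_le_iff.mp h1 with h2 | h2
        · linarith
        · -- 2κ = 1/4
          have : κ = 1/8 := le_antisymm hκ8 (by linarith)
          -- use strictness
          have h3 : (1/4 : ℝ) ≤ 2 * κ := h2
          -- choose the point where the norm equals 1/4
          have hcont : ContinuousOn (fun r => ‖w r‖) (uIcc 0 s) := hwc.norm.continuousOn
          have hiv := intermediate_value_uIcc hcont
          have hmem : (1/4 : ℝ) ∈ uIcc ‖w 0‖ ‖w s‖ := by
            rw [hw0, norm_zero, mem_uIcc]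
            left
            constructor
            · norm_num
            · linarith
          obtain ⟨r, hr, hr2⟩ := hiv hmem
          have hr3 : |r| < δ := by
            rcases mem_uIcc.mp hr with ⟨h5, h6⟩ | ⟨h5, h6⟩
            · rw [abs_of_nonneg h5]
              exact lt_of_le_of_lt (h6.trans (le_abs_self s)) hs
            · rw [abs_of_nonpos h6]
              exact lt_of_le_of_lt (by linarith [neg_le_abs s]) hs
          have h7 : ‖w r‖ = 1/4 := hr2
          have h1' : ‖Complex.exp (w r) - 1 - (w r)‖ ≤ ‖w r‖ ^ 2 :=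
            Complex.norm_exp_sub_one_sub_id_le (by linarith)
          have h2' : ‖w r‖ ≤ ‖Complex.exp (w r) - 1‖ + ‖Complex.exp (w r) - 1 - (w r)‖ := by
            calc ‖w r‖ = ‖(Complex.exp (w r) - 1) - (Complex.exp (w r) - 1 - (w r))‖ := by congr 1; ring
              _ ≤ _ := norm_sub_le _ _
          have h8 := hexp r hr3
          rw [h7] at h1' h2'
          norm_num at h1' h2'
          linarith
    have hcont : ContinuousOn (fun r => ‖w r‖) (uIcc 0 s) := hwc.norm.continuousOn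
    have hiv := intermediate_value_uIcc hcont
    have hmem : ρ ∈ uIcc ‖w 0‖ ‖w s‖ := by
      rw [hw0, norm_zero, mem_uIcc]
      left
      exact ⟨by linarith, hρ2.1.trans (min_le_left _ _)⟩
    obtain ⟨r, hr, hr2⟩ := hiv hmem
    have hr3 : |r| < δ := by
      rcases mem_uIcc.mp hr with ⟨h5, h6⟩ | ⟨h5, h6⟩
      · rw [abs_of_nonneg h5]
        exact lt_of_le_of_lt (h6.trans (le_abs_self s)) hs
      · rw [abs_of_nonpos h6]
        exact lt_of_le_of_lt (by linarith [neg_le_abs s]) hs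
    have h7 : ‖w r‖ = ρ := hr2
    have h8 := hlow (w r) (by rw [h7]; exact hρ2.1.trans (min_le_right _ _))
    have h9 := hexp r hr3
    rw [h7] at h8
    linarith
  have hnorm : ‖w s‖ = (1/2) * ‖Θ (ξ + s) - Θ ξ‖ := by
    rw [hw]
    show ‖Complex.I * ((1/2 : ℝ) : ℂ) * (Θ (ξ + s) - Θ ξ)‖ = _
    rw [norm_mul, norm_mul, Complex.norm_I, one_mul, Complex.norm_real, Real.norm_eq_abs,
      abs_of_pos (by norm_num)]
  rw [hnorm] at hsmall
  linarith

/-- bounded increments. -/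
theorem bdd_incr (h : ∃ δ > 0, ∀ s : ℝ, |s| < δ → ∀ ξ, ‖Θ (ξ + s) - Θ ξ‖ ≤ 1) (s : ℝ) :
    ∃ C, 0 ≤ C ∧ ∀ ξ, ‖Θ (ξ + s) - Θ ξ‖ ≤ C := by
  obtain ⟨δ, hδ, h1⟩ := h
  have key : ∀ n : ℕ, ∀ r : ℝ, |r| < δ → ∀ ξ, ‖Θ (ξ + n * r) - Θ ξ‖ ≤ n := by
    intro n r hr
    induction n with
    | zero => intro ξ; simp
    | succ n ih =>
      intro ξ
      have e : Θ (ξ + (n + 1 : ℕ) * r) - Θ ξ = (Θ ((ξ + n * r) + r) - Θ (ξ + n * r)) + (Θ (ξ + n * r) - Θ ξ) := by
        have : ξ + ((n + 1 : ℕ) : ℝ) * r = (ξ + n * r) + r := by push_cast; ring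
        rw [this]; ring
      rw [e]
      refine (norm_add_le _ _).trans ?_
      have a1 := h1 r hr (ξ + n * r)
      have a2 := ih ξ
      push_cast
      linarith
  obtain ⟨n, hn⟩ := exists_nat_gt (|s| / δ)
  have hn0 : (0:ℝ) < n := lt_of_le_of_lt (by positivity) hn
  refine ⟨n, hn0.le, fun ξ => ?_⟩
  have h2 := key n (s / n) (by
    rw [abs_div, abs_of_pos hn0, div_lt_iff₀ hn0]
    rw [div_lt_iff₀ hδ] at hn
    linarith) ξ
  have e : ξ + (n:ℝ) * (s / n) = ξ + s := by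
    field_simp
  rwa [e] at h2

theorem exp_close {a b : ℂ} {C η : ℝ} (ha : ‖a‖ ≤ C) (hab : ‖b - a‖ ≤ η) (hη : η ≤ 1) :
    ‖Complex.exp a - Complex.exp b‖ ≤ Real.exp C * (2 * η) := by
  have e : Complex.exp a - Complex.exp b = -(Complex.exp a * (Complex.exp (b - a) - 1)) := by
    rw [mul_sub, ← Complex.exp_add, mul_one]
    have : a + (b - a) = b := by ring
    rw [this]; ring
  rw [e, norm_neg, norm_mul]
  have h1 : ‖Complex.exp a‖ ≤ Real.exp C := by
    rw [Complex.norm_exp]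
    exact Real.exp_le_exp.mpr (((le_abs_self _).trans (Complex.abs_re_le_norm a)).trans ha)
  have h2 : ‖Complex.exp (b - a) - 1‖ ≤ 2 * η :=
    (Complex.norm_exp_sub_one_le (hab.trans hη)).trans (by linarith)
  exact mul_le_mul h1 h2 (norm_nonneg _) (Real.exp_pos _).le

theorem final (hc : Continuous Θ) (heven : ∀ ξ, Θ (-ξ) = Θ ξ) {m : ℝ} (him : ∀ ξ, |(Θ ξ).im| ≤ m)
    (hinf : Tendsto (fun ξ => ‖Θ ξ‖) atTop atTop)
    (hrep : ∀ y : ℝ, |y| < 1 → IsFS (fun ξ => Complex.exp (Complex.I * y * Θ ξ))) : False := by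
  -- notation
  set G : ℝ → ℝ → ℂ := fun y ξ => Complex.exp (Complex.I * y * Θ ξ) with hG
  have hunif : ∀ η > 0, ∃ δ > 0, ∀ s : ℝ, |s| < δ → ∀ ξ, ‖Θ (ξ + s) - Θ ξ‖ ≤ η := fun η hη =>
    unif_exponent hc him (hrep (1/2) (by rw [abs_of_pos] <;> norm_num)) η hη
  set A : ℝ → ℝ → ℝ → ℂ := fun y s ξ => G y (ξ + s) * G (-y) ξ with hA
  have hAFS : ∀ y s, |y| < 1 → IsFS (A y s) := fun y s hy =>
    ((hrep y hy).translate s).mul (hrep (-y) (by rwa [abs_neg]))
  have hAexp : ∀ y s ξ, A y s ξ = Complex.exp (Complex.I * y * (Θ (ξ + s) - Θ ξ)) := by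
    intro y s ξ
    rw [hA, hG]
    show Complex.exp (Complex.I * y * Θ (ξ + s)) * Complex.exp (Complex.I * ((-y : ℝ) : ℂ) * Θ ξ) = _
    rw [← Complex.exp_add]
    congr 1
    push_cast
    ring
  -- the countable set
  set L0 : Set ℝ := {z | ∃ y s : ℝ, |y| < 1 ∧ coef (A y s) z ≠ 0} with hL0
  have hL0c : L0.Countable := by
    have hsub : L0 ⊆ ⋃ p : ℚ, ⋃ q : ℚ, {z | |(p:ℝ)| < 1 ∧ coef (A p q) z ≠ 0} := by
      rintro z ⟨y, s, hy, hz⟩
      obtain ⟨C, hC0, hC⟩ := bdd_incr (hunif 1 one_pos) s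
      set ε := ‖coef (A y s) z‖ with hε
      have hε0 : 0 < ε := norm_pos_iff.mpr hz
      -- tolerance
      set η : ℝ := min 1 (ε / (4 * Real.exp C)) / 2 with hη
      have hexpC := Real.exp_pos C
      have hη0 : 0 < η := by
        rw [hη]
        exact half_pos (lt_min one_pos (by positivity))
      obtain ⟨δ, hδ, hδu⟩ := hunif η hη0
      obtain ⟨q, hq1, hq2⟩ := exists_rat_btwn (show s < s + δ by linarith)
      set ρ : ℝ := η / (C + 1) with hρ
      have hρ0 : 0 < ρ := by positivity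
      obtain ⟨p, hp1, hp2⟩ := exists_rat_btwn (show max (y - ρ) (-1) < min (y + ρ) 1 by
        rw [abs_lt] at hy
        rw [max_lt_iff, lt_min_iff, lt_min_iff]
        refine ⟨⟨?_, ?_⟩, ?_, ?_⟩ <;> linarith [hy.1, hy.2])
      rw [max_lt_iff] at hp1
      rw [lt_min_iff] at hp2
      have hp3 : |(p:ℝ)| < 1 := abs_lt.mpr ⟨hp1.2, hp2.2⟩
      rw [mem_iUnion]
      refine ⟨p, ?_⟩
      rw [mem_iUnion]
      refine ⟨q, hp3, ?_⟩
      intro h0
      -- closeness
      have hclose : ∀ ξ, ‖A y s ξ - A p q ξ‖ ≤ Real.exp C * (2 * (2 * η)) := by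
        intro ξ
        rw [hAexp, hAexp]
        apply exp_close
        · rw [norm_mul, norm_mul, Complex.norm_I, one_mul, Complex.norm_real, Real.norm_eq_abs]
          calc |y| * ‖Θ (ξ + s) - Θ ξ‖ ≤ 1 * C := mul_le_mul hy.le (hC ξ) (norm_nonneg _) zero_le_one
            _ = C := one_mul _
        · have e : Complex.I * ((p:ℝ):ℂ) * (Θ (ξ + q) - Θ ξ) - Complex.I * (y:ℂ) * (Θ (ξ + s) - Θ ξ) =
              Complex.I * ((p:ℝ):ℂ) * (Θ ((ξ + s) + (q - s)) - Θ (ξ + s)) +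
                Complex.I * (((p:ℝ) - y : ℝ) : ℂ) * (Θ (ξ + s) - Θ ξ) := by
            have : (ξ + s) + ((q:ℝ) - s) = ξ + q := by ring
            rw [this]
            push_cast
            ring
          rw [e]
          refine (norm_add_le _ _).trans ?_
          rw [norm_mul, norm_mul, Complex.norm_I, one_mul, Complex.norm_real, Real.norm_eq_abs,
            norm_mul, norm_mul, Complex.norm_I, one_mul, Complex.norm_real, Real.norm_eq_abs]
          have a1 : |(p:ℝ)| * ‖Θ ((ξ + s) + (q - s)) - Θ (ξ + s)‖ ≤ 1 * η := by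
            apply mul_le_mul hp3.le _ (norm_nonneg _) zero_le_one
            apply hδu
            rw [abs_lt]
            constructor <;> linarith
          have a2 : |(p:ℝ) - y| * ‖Θ (ξ + s) - Θ ξ‖ ≤ ρ * C := by
            apply mul_le_mul _ (hC ξ) (norm_nonneg _) hρ0.le
            rw [abs_le]
            constructor <;> linarith [hp1.1, hp2.1]
          have a3 : ρ * C ≤ η := by
            rw [hρ, div_mul_eq_mul_div, div_le_iff₀ (by linarith)]
            nlinarith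
          linarith
        · rw [hη]
          have := min_le_left 1 (ε / (4 * Real.exp C))
          linarith
      have h1 := coef_sub_le (hAFS y s hy) (hAFS p q hp3) hclose z
      rw [h0, sub_zero] at h1
      have h2 : Real.exp C * (2 * (2 * η)) ≤ ε / 2 := by
        have h3 : 2 * η ≤ ε / (4 * Real.exp C) := by
          rw [hη]
          have := min_le_right 1 (ε / (4 * Real.exp C))
          linarith
        have h4 : Real.exp C * (2 * (ε / (4 * Real.exp C))) = ε / 2 := by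
          field_simp
          ring
        rw [← h4]
        gcongr
      linarith
    apply Countable.mono hsub
    apply countable_iUnion
    intro p
    apply countable_iUnion
    intro q
    by_cases hp : |(p:ℝ)| < 1
    · exact (countable_coef (hAFS p q hp)).mono (fun z hz => hz.2)
    · have : {z | |(p:ℝ)| < 1 ∧ coef (A p q) z ≠ 0} = ∅ := by
        ext z; simp [hp]
      rw [this]
      exact countable_empty
  -- products of coefficients
  have hprod : ∀ y, |y| < 1 → ∀ u v, coef (G y) u ≠ 0 → coef (G (-y)) v ≠ 0 → u + v ∈ L0 := by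
    intro y hy u v hu hv
    by_contra hcon
    have h1 := coef_mul_zero (hrep y hy) (hrep (-y) (by rwa [abs_neg])) (z := u + v) (fun s => by
      by_contra h0
      exact hcon ⟨y, s, hy, h0⟩) u
    rw [show u + v - u = v by ring] at h1
    rcases mul_eq_zero.mp h1 with h2 | h2
    · exact hu h2
    · exact hv h2
  -- nonempty spectra
  have hone : ∀ y, |y| < 1 → ∃ u v, coef (G y) u ≠ 0 ∧ coef (G (-y)) v ≠ 0 := by
    intro y hy
    have h1 : (fun ξ => G y ξ * G (-y) ξ) = fun _ => (1:ℂ) := by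
      funext ξ
      have := hAexp y 0 ξ
      rw [hA] at this
      simp only [add_zero, sub_self, mul_zero, Complex.exp_zero] at this
      exact this
    have h2 : coef (fun ξ => G y ξ * G (-y) ξ) 0 ≠ 0 := by
      rw [h1, coef_one]; exact one_ne_zero
    obtain ⟨u, hu1, hu2⟩ := coef_mul_exists (hrep y hy) (hrep (-y) (by rwa [abs_neg])) h2
    exact ⟨u, _, hu1, hu2⟩
  -- evenness
  have hev : ∀ y, |y| < 1 → ∀ u, coef (G y) (-u) = coef (G y) u := by
    intro y hy u
    rw [← coef_reflect (hrep y hy)]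
    congr 1
    funext ξ
    show G y (-ξ) = G y ξ
    rw [hG]
    show Complex.exp (Complex.I * y * Θ (-ξ)) = Complex.exp (Complex.I * y * Θ ξ)
    rw [heven]
  -- spectra are contained in a countable set
  set L : Set ℝ := Set.image2 (fun a b => a + b) L0 L0 with hL
  have hLc : L.Countable := hL0c.image2 hL0c _
  have hspec : ∀ y, |y| < 1 → ∀ z, coef (G y) z ≠ 0 → z ∈ L := by
    intro y hy z hz
    have hy2 : |y / 2| < 1 := by
      rw [abs_div, abs_of_pos (by norm_num : (0:ℝ) < 2)]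
      linarith [abs_nonneg y]
    have h1 : G y = fun ξ => G (y / 2) ξ * G (y / 2) ξ := by
      funext ξ
      rw [hG]
      show Complex.exp (Complex.I * y * Θ ξ) = Complex.exp (Complex.I * ((y/2 : ℝ) : ℂ) * Θ ξ) *
        Complex.exp (Complex.I * ((y/2 : ℝ) : ℂ) * Θ ξ)
      rw [← Complex.exp_add]
      congr 1
      push_cast
      ring
    rw [h1] at hz
    obtain ⟨u, hu1, hu2⟩ := coef_mul_exists (hrep (y/2) hy2) (hrep (y/2) hy2) hz
    obtain ⟨_, w, -, hw⟩ := hone (y/2) hy2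
    have hw' : coef (G (-(y/2))) (-w) ≠ 0 := by
      rw [hev (-(y/2)) (by rwa [abs_neg])]
      exact hw
    refine ⟨u + w, hprod _ hy2 u w hu1 hw, (z - u) + (-w), hprod _ hy2 _ _ hu2 hw', ?_⟩
    show u + w + (z - u + -w) = z
    ring
  -- every coefficient vanishes for almost every y
  have hvan : ∀ x, ∀ᵐ y : ℝ, y ∈ Ioo (0:ℝ) 1 → coef (G y) x = 0 := by
    intro x
    have hcc := continuous_ch
    have hjoint : Continuous (fun q : ℝ × ℝ => G q.1 q.2 * ch (-(q.2 * x))) := by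
      rw [hG]
      fun_prop
    apply lemmaZ (u := fun n y => mean (fun ξ => G y ξ * ch (-(ξ * x))) n) (C := Real.exp m)
    · intro n
      unfold mean
      apply continuous_const.mul
      exact intervalIntegral.continuous_parametric_intervalIntegral_of_continuous' hjoint _ _
    · intro n y hy
      apply norm_mean_le
      intro ξ _
      rw [norm_mul, norm_ch, mul_one]
      exact (norm_exp_ge (him ξ) (by rw [abs_of_pos hy.1]; exact hy.2.le)).2
    · intro y hy
      exact (hrep y (by rw [abs_of_pos hy.1]; exact hy.2)).tendsto x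
    · intro b hb
      -- Fubini
      have hswap : ∀ n : ℕ, ∫ y in (0:ℝ)..b, mean (fun ξ => G y ξ * ch (-(ξ * x))) n =
          mean (fun ξ => (∫ y in (0:ℝ)..b, G y ξ) * ch (-(ξ * x))) n := by
        intro n
        unfold mean
        rw [intervalIntegral.integral_const_mul]
        congr 1
        rw [intervalIntegral_intervalIntegral_swap]
        · congr 1
          funext ξ
          rw [intervalIntegral.integral_mul_const]
        · exact (hjoint.continuousOn.integrableOn_compact (isCompact_uIcc.prod isCompact_uIcc)).mono_set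
            (Set.prod_mono uIoc_subset_uIcc uIoc_subset_uIcc)
      simp_rw [hswap]
      rw [Metric.tendsto_atTop]
      intro ε hε
      have hlim : Tendsto (fun ξ => (Real.exp m + 1) / ‖Θ ξ‖) atTop (𝓝 0) :=
        tendsto_const_nhds.div_atTop hinf
      have h1 := (tendsto_order.1 hlim).2 (ε / 2) (half_pos hε)
      obtain ⟨R, hR⟩ := eventually_atTop.mp (h1.and (hinf.eventually_gt_atTop 0))
      obtain ⟨N, hN⟩ := exists_nat_ge R
      refine ⟨N, fun n hn => ?_⟩
      rw [dist_zero_right]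
      have hn' : (N:ℝ) ≤ n := by exact_mod_cast hn
      have h2 : ‖mean (fun ξ => (∫ y in (0:ℝ)..b, G y ξ) * ch (-(ξ * x))) n‖ ≤ ε / 2 := by
        apply norm_mean_le
        intro ξ hξ
        have h3 := hR ξ (by linarith)
        rw [norm_mul, norm_ch, mul_one]
        exact (int_exp (norm_pos_iff.mp h3.2) (him ξ) hb.1.le hb.2.le).trans h3.1.le
      linarith
  -- conclusion
  have hall : ∀ᵐ y : ℝ, ∀ x ∈ L, y ∈ Ioo (0:ℝ) 1 → coef (G y) x = 0 := by
    rw [ae_ball_iff hLc]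
    intro x _
    exact hvan x
  have hfalse : ∀ᵐ y : ℝ, y ∉ Ioo (0:ℝ) 1 := by
    filter_upwards [hall] with y hy hyI
    have hy1 : |y| < 1 := by rw [abs_of_pos hyI.1]; exact hyI.2
    obtain ⟨u, v, hu, hv⟩ := hone y hy1
    exact hu (hy u (hspec y hy1 u hu) hyI)
  have h3 : volume (Ioo (0:ℝ) 1) = 0 := by
    apply measure_mono_null _ hfalse
    intro y hy hc
    exact hc hy
  rw [Real.volume_Ioo] at h3
  simp at h3

end

end Pool.Agent.J4H86.AS
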