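import Mathlib

/-!
# Fourier-Stieltjes transforms: representations, means and coefficients
-/

set_option autoImplicit false

open MeasureTheory Filter Topology Set
open scoped ENNReal

namespace Pool.Agent.J4H86.AS

/-- `e^{-2πiu}` -/
noncomputable def ch (u : ℝ) : ℂ := Complex.exp ((-(2 * Real.pi * u) : ℝ) * Complex.I)

theorem norm_ch (u : ℝ) : ‖ch u‖ = 1 := Complex.norm_exp_ofReal_mul_I _

theorem ch_add (u v : ℝ) : ch (u + v) = ch u * ch v := by
  unfold ch
  rw [← Complex.exp_add]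
  congr 1
  push_cast
  ring

theorem ch_zero : ch 0 = 1 := by simp [ch]

theorem ch_neg_mul (u : ℝ) : ch (-u) * ch u = 1 := by
  rw [← ch_add]; simp [ch_zero]

theorem continuous_ch : Continuous ch := by
  unfold ch
  fun_prop

theorem measurable_ch : Measurable ch := continuous_ch.measurable

/-- Mean over the window `[n+1, 2(n+1)]`. -/
noncomputable def mean (f : ℝ → ℂ) (n : ℕ) : ℂ :=
  (1 / ((n:ℂ) + 1)) * ∫ ξ in ((n:ℝ) + 1)..(2 * ((n:ℝ) + 1)), f ξ

theorem mean_const (c : ℂ) (n : ℕ) : mean (fun _ => c) n = c := by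
  unfold mean
  rw [intervalIntegral.integral_const, Complex.real_smul]
  have : ((2 * ((n:ℝ) + 1) - ((n:ℝ) + 1) : ℝ) : ℂ) = (n:ℂ) + 1 := by push_cast; ring
  rw [this, ← mul_assoc, one_div, inv_mul_cancel₀, one_mul]
  exact_mod_cast Nat.succ_ne_zero n

theorem norm_mean_le {f : ℝ → ℂ} {C : ℝ} (n : ℕ) (hf : ∀ ξ, (n:ℝ) + 1 ≤ ξ → ‖f ξ‖ ≤ C) :
    ‖mean f n‖ ≤ C := by
  unfold mean
  have hn : (0:ℝ) < (n:ℝ) + 1 := by positivity
  rw [norm_mul]
  have h1 : ‖(1 / ((n:ℂ) + 1))‖ = 1 / ((n:ℝ) + 1) := by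
    rw [norm_div, norm_one]
    congr 1
    have : ((n:ℂ) + 1) = (((n:ℝ) + 1 : ℝ) : ℂ) := by push_cast; rfl
    rw [this, Complex.norm_real, Real.norm_eq_abs, abs_of_pos hn]
  have h2 : ‖∫ ξ in ((n:ℝ) + 1)..(2 * ((n:ℝ) + 1)), f ξ‖ ≤ C * |2 * ((n:ℝ) + 1) - ((n:ℝ) + 1)| := by
    apply intervalIntegral.norm_integral_le_of_norm_le_const
    intro x hx
    rw [uIoc_of_le (by linarith)] at hx
    exact hf x hx.1.le
  have h3 : |2 * ((n:ℝ) + 1) - ((n:ℝ) + 1)| = (n:ℝ) + 1 := by
    rw [show 2 * ((n:ℝ) + 1) - ((n:ℝ) + 1) = (n:ℝ) + 1 by ring, abs_of_pos hn]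
  rw [h3] at h2
  rw [h1]
  calc 1 / ((n:ℝ) + 1) * ‖∫ ξ in ((n:ℝ) + 1)..(2 * ((n:ℝ) + 1)), f ξ‖
      ≤ 1 / ((n:ℝ) + 1) * (C * ((n:ℝ) + 1)) := mul_le_mul_of_nonneg_left h2 (by positivity)
    _ = C := by field_simp

/-- mean of a nontrivial character tends to zero. -/
theorem mean_ch (u : ℝ) (hu : u ≠ 0) : Tendsto (fun n => mean (fun ξ => ch (ξ * u)) n) atTop (𝓝 0) := by
  have hpi := Real.pi_pos
  set c : ℂ := ((-(2 * Real.pi * u) : ℝ) : ℂ) * Complex.I with hc
  have hc0 : c ≠ 0 := by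
    rw [hc]
    apply mul_ne_zero _ Complex.I_ne_zero
    norm_cast
    apply neg_ne_zero.mpr
    positivity
  have hint : ∀ a b : ℝ, ∫ ξ in a..b, ch (ξ * u) = (Complex.exp (c * b) - Complex.exp (c * a)) / c := by
    intro a b
    rw [← integral_exp_mul_complex hc0]
    apply intervalIntegral.integral_congr
    intro x _
    show ch (x * u) = Complex.exp (c * x)
    unfold ch
    rw [hc]
    congr 1
    push_cast
    ring
  have hnorm : ∀ a : ℝ, ‖Complex.exp (c * a)‖ = 1 := by
    intro a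
    rw [hc]
    have : ((-(2 * Real.pi * u) : ℝ) : ℂ) * Complex.I * (a:ℂ) = ((-(2 * Real.pi * u) * a : ℝ) : ℂ) * Complex.I := by
      push_cast; ring
    rw [this, Complex.norm_exp_ofReal_mul_I]
  apply squeeze_zero_norm (a := fun n : ℕ => (2 / ‖c‖) * (1 / ((n:ℝ) + 1)))
  · intro n
    unfold mean
    have h1 : ‖(1 / ((n:ℂ) + 1))‖ = 1 / ((n:ℝ) + 1) := by
      rw [norm_div, norm_one]
      congr 1
      have : ((n:ℂ) + 1) = (((n:ℝ) + 1 : ℝ) : ℂ) := by push_cast; rfl
      rw [this, Complex.norm_real, Real.norm_eq_abs, abs_of_pos (by positivity)]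
    rw [hint, norm_mul, h1, norm_div, mul_comm (2 / ‖c‖)]
    apply mul_le_mul_of_nonneg_left _ (by positivity)
    apply div_le_div_of_nonneg_right _ (norm_nonneg _)
    refine (norm_sub_le _ _).trans ?_
    rw [hnorm, hnorm]
    norm_num
  · have := (tendsto_one_div_add_atTop_nhds_zero_nat (𝕜 := ℝ)).const_mul (2 / ‖c‖)
    simpa using this

section

variable {Ω : Type} [MeasurableSpace Ω]

/-- `f` is the Fourier-Stieltjes transform represented by the data. -/
def HasRep (P : Measure Ω) (X : Ω → ℝ) (h : Ω → ℂ) (f : ℝ → ℂ) : Prop :=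
  Measurable X ∧ Integrable h P ∧ ∀ ξ, f ξ = ∫ ω, ch (ξ * X ω) * h ω ∂P

/-- the coefficient (mass of the atom). -/
noncomputable def cf (P : Measure Ω) (X : Ω → ℝ) (h : Ω → ℂ) (z : ℝ) : ℂ := ∫ ω in {ω | X ω = z}, h ω ∂P

theorem measurableSet_level {X : Ω → ℝ} (hX : Measurable X) (z : ℝ) : MeasurableSet {ω | X ω = z} :=
  hX (measurableSet_singleton z)

theorem integrable_ch_mul {P : Measure Ω} {Y : Ω → ℝ} {h : Ω → ℂ} (hY : Measurable Y)
    (hh : Integrable h P) : Integrable (fun ω => ch (Y ω) * h ω) P := by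
  apply hh.bdd_mul (c := 1) (measurable_ch.comp hY).aestronglyMeasurable
  exact Eventually.of_forall (fun ω => (norm_ch _).le)

theorem HasRep.mean_tendsto {P : Measure Ω} [IsFiniteMeasure P] {X : Ω → ℝ} {h : Ω → ℂ} {f : ℝ → ℂ}
    (H : HasRep P X h f) (z : ℝ) :
    Tendsto (fun n => mean (fun ξ => f ξ * ch (-(ξ * z))) n) atTop (𝓝 (cf P X h z)) := by
  obtain ⟨hX, hh, hf⟩ := H
  -- Fubini
  have hswap : ∀ n : ℕ, mean (fun ξ => f ξ * ch (-(ξ * z))) n =
      ∫ ω, mean (fun ξ => ch (ξ * (X ω - z))) n * h ω ∂P := by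
    intro n
    unfold mean
    have h1 : (fun ξ => f ξ * ch (-(ξ * z))) = fun ξ => ∫ ω, ch (ξ * (X ω - z)) * h ω ∂P := by
      funext ξ
      rw [hf ξ, ← integral_mul_const]
      congr 1
      funext ω
      rw [mul_right_comm, ← ch_add]
      congr 2
      ring
    rw [h1, intervalIntegral_integral_swap, ← integral_const_mul]
    · congr 1
      funext ω
      rw [intervalIntegral.integral_mul_const, mul_assoc]
    · -- integrability on the product
      have h2 : Integrable (fun p : ℝ × Ω => h p.2)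
          ((volume.restrict (uIoc ((n:ℝ) + 1) (2 * ((n:ℝ) + 1)))).prod P) := by
        have hfin : IsFiniteMeasure (volume.restrict (uIoc ((n:ℝ) + 1) (2 * ((n:ℝ) + 1)))) := by
          constructor
          rw [Measure.restrict_apply_univ, uIoc_of_le (by
            have : (0:ℝ) ≤ n := Nat.cast_nonneg n
            linarith)]
          exact measure_Ioc_lt_top
        exact hh.comp_snd _
      have h3 : Measurable (fun p : ℝ × Ω => p.1 * (X p.2 - z)) := by fun_prop
      exact integrable_ch_mul h3 h2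
  simp_rw [hswap]
  have hlim : cf P X h z = ∫ ω, ({ω | X ω = z}.indicator (fun _ => (1:ℂ)) ω) * h ω ∂P := by
    unfold cf
    rw [← integral_indicator (measurableSet_level hX z)]
    congr 1
    funext ω
    by_cases hω : X ω = z
    · have : ω ∈ {ω | X ω = z} := hω
      simp [this]
    · have : ω ∉ {ω | X ω = z} := hω
      simp [this]
  rw [hlim]
  apply tendsto_integral_of_dominated_convergence (fun ω => ‖h ω‖)
  · intro n
    apply AEStronglyMeasurable.mul _ hh.aestronglyMeasurable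
    unfold mean
    apply AEStronglyMeasurable.const_mul
    have h4 : StronglyMeasurable (fun ω => ∫ ξ in ((n:ℝ) + 1)..(2 * ((n:ℝ) + 1)), ch (ξ * (X ω - z))) := by
      have : ∀ ω, ∫ ξ in ((n:ℝ) + 1)..(2 * ((n:ℝ) + 1)), ch (ξ * (X ω - z)) =
          ∫ ξ in Ioc ((n:ℝ) + 1) (2 * ((n:ℝ) + 1)), ch (ξ * (X ω - z)) := by
        intro ω
        rw [intervalIntegral.integral_of_le (by
            have : (0:ℝ) ≤ n := Nat.cast_nonneg n
            linarith)]
      simp_rw [this]
      apply StronglyMeasurable.integral_prod_right (f := fun ω ξ => ch (ξ * (X ω - z)))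
      apply Measurable.stronglyMeasurable
      apply measurable_ch.comp
      fun_prop
    exact h4.aestronglyMeasurable
  · exact hh.norm
  · intro n
    refine Eventually.of_forall (fun ω => ?_)
    rw [norm_mul]
    calc _ ≤ 1 * ‖h ω‖ := by
          apply mul_le_mul_of_nonneg_right _ (norm_nonneg _)
          exact norm_mean_le n (fun ξ _ => (norm_ch _).le)
      _ = ‖h ω‖ := one_mul _
  · refine Eventually.of_forall (fun ω => ?_)
    apply Tendsto.mul_const
    by_cases hω : X ω = z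
    · have h5 : ω ∈ {ω | X ω = z} := hω
      rw [indicator_of_mem h5]
      have e0 : X ω - z = 0 := by rw [hω, sub_self]
      have e1 : (fun ξ : ℝ => ch (ξ * (X ω - z))) = fun _ => (1:ℂ) := by
        funext ξ
        rw [e0, mul_zero, ch_zero]
      rw [e1]
      have : mean (fun _ => (1:ℂ)) = fun _ => (1:ℂ) := by
        funext n
        exact mean_const 1 n
      rw [this]
      exact tendsto_const_nhds
    · have h5 : ω ∉ {ω | X ω = z} := hω
      rw [indicator_of_notMem h5]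
      exact mean_ch _ (sub_ne_zero.mpr hω)

theorem HasRep.norm_le {P : Measure Ω} {X : Ω → ℝ} {h : Ω → ℂ} {f : ℝ → ℂ}
    (H : HasRep P X h f) (ξ : ℝ) : ‖f ξ‖ ≤ ∫ ω, ‖h ω‖ ∂P := by
  rw [H.2.2 ξ]
  refine (norm_integral_le_integral_norm _).trans (le_of_eq ?_)
  congr 1
  funext ω
  rw [norm_mul, norm_ch, one_mul]

/-- uniform continuity. -/
theorem HasRep.unif {P : Measure Ω} {X : Ω → ℝ} {h : Ω → ℂ} {f : ℝ → ℂ}
    (H : HasRep P X h f) (η : ℝ) (hη : 0 < η) :
    ∃ δ > 0, ∀ s : ℝ, |s| < δ → ∀ ξ, ‖f (ξ + s) - f ξ‖ ≤ η := by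
  obtain ⟨hX, hh, hf⟩ := H
  have hb : ∀ s ξ, ‖f (ξ + s) - f ξ‖ ≤ ∫ ω, ‖ch (s * X ω) - 1‖ * ‖h ω‖ ∂P := by
    intro s ξ
    rw [hf, hf, ← integral_sub]
    · refine (norm_integral_le_integral_norm _).trans (le_of_eq ?_)
      congr 1
      funext ω
      have : ch ((ξ + s) * X ω) * h ω - ch (ξ * X ω) * h ω = ch (ξ * X ω) * ((ch (s * X ω) - 1) * h ω) := by
        rw [add_mul, ch_add]; ring
      rw [this, norm_mul, norm_ch, one_mul, norm_mul]
    · exact integrable_ch_mul (by fun_prop) hh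
    · exact integrable_ch_mul (by fun_prop) hh
  have hlim : Tendsto (fun s : ℝ => ∫ ω, ‖ch (s * X ω) - 1‖ * ‖h ω‖ ∂P) (𝓝 0) (𝓝 0) := by
    have key : Tendsto (fun s : ℝ => ∫ ω, ‖ch (s * X ω) - 1‖ * ‖h ω‖ ∂P) (𝓝 0)
        (𝓝 (∫ ω, (0:ℝ) ∂P)) := ?_
    · simpa using key
    apply tendsto_integral_filter_of_dominated_convergence (fun ω => 2 * ‖h ω‖)
    · refine Eventually.of_forall (fun s => ?_)
      apply AEStronglyMeasurable.mul _ hh.norm.aestronglyMeasurable
      apply Measurable.aestronglyMeasurable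
      apply Measurable.norm
      exact (measurable_ch.comp (by fun_prop)).sub_const _
    · refine Eventually.of_forall (fun s => Eventually.of_forall (fun ω => ?_))
      rw [norm_mul, norm_norm, norm_norm]
      apply mul_le_mul_of_nonneg_right _ (norm_nonneg _)
      refine (norm_sub_le _ _).trans ?_
      rw [norm_ch, norm_one]; norm_num
    · exact hh.norm.const_mul 2
    · refine Eventually.of_forall (fun ω => ?_)
      have h1 : Continuous (fun s : ℝ => ‖ch (s * X ω) - 1‖ * ‖h ω‖) := by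
        have := continuous_ch
        fun_prop
      have h2 := h1.tendsto 0
      simp only [zero_mul, ch_zero, sub_self, norm_zero] at h2
      exact h2
  have h3 := (tendsto_order.1 hlim).2 η hη
  rw [Metric.eventually_nhds_iff] at h3
  obtain ⟨δ, hδ, h4⟩ := h3
  refine ⟨δ, hδ, fun s hs ξ => ?_⟩
  have := h4 (y := s) (by simpa [Real.dist_eq] using hs)
  exact (hb s ξ).trans this.le

theorem HasRep.continuous {P : Measure Ω} {X : Ω → ℝ} {h : Ω → ℂ} {f : ℝ → ℂ}
    (H : HasRep P X h f) : Continuous f := by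
  rw [Metric.continuous_iff]
  intro x ε hε
  obtain ⟨δ, hδ, h1⟩ := H.unif (ε / 2) (half_pos hε)
  refine ⟨δ, hδ, fun y hy => ?_⟩
  have := h1 (y - x) (by simpa [Real.dist_eq] using hy) x
  rw [dist_eq_norm]
  have e : x + (y - x) = y := by ring
  rw [e] at this
  linarith

end

section

variable {Ω Ω' : Type} [MeasurableSpace Ω] [MeasurableSpace Ω']

theorem cf_unique {P : Measure Ω} [IsFiniteMeasure P] {X : Ω → ℝ} {h : Ω → ℂ} {f : ℝ → ℂ}
    (H : HasRep P X h f) {Q : Measure Ω'} [IsFiniteMeasure Q] {Y : Ω' → ℝ} {k : Ω' → ℂ}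
    (H' : HasRep Q Y k f) (z : ℝ) : cf P X h z = cf Q Y k z :=
  tendsto_nhds_unique (H.mean_tendsto z) (H'.mean_tendsto z)

/-- coefficients are controlled by the sup norm. -/
theorem cf_sub_le {P : Measure Ω} [IsFiniteMeasure P] {X : Ω → ℝ} {h : Ω → ℂ} {f : ℝ → ℂ}
    (H : HasRep P X h f) {Q : Measure Ω'} [IsFiniteMeasure Q] {Y : Ω' → ℝ} {k : Ω' → ℂ} {g : ℝ → ℂ}
    (H' : HasRep Q Y k g) {C : ℝ} (hC : ∀ ξ, ‖f ξ - g ξ‖ ≤ C) (z : ℝ) :
    ‖cf P X h z - cf Q Y k z‖ ≤ C := by
  have h1 := (H.mean_tendsto z).sub (H'.mean_tendsto z)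
  apply le_of_tendsto h1.norm
  refine Eventually.of_forall (fun n => ?_)
  have hcf := H.continuous
  have hcg := H'.continuous
  have hcc := continuous_ch
  have : mean (fun ξ => f ξ * ch (-(ξ * z))) n - mean (fun ξ => g ξ * ch (-(ξ * z))) n =
      mean (fun ξ => (f ξ - g ξ) * ch (-(ξ * z))) n := by
    unfold mean
    rw [← mul_sub, ← intervalIntegral.integral_sub]
    · congr 2
      funext ξ
      ring
    · apply Continuous.intervalIntegrable; fun_prop
    · apply Continuous.intervalIntegrable; fun_prop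
  rw [this]
  apply norm_mean_le
  intro ξ _
  rw [norm_mul, norm_ch, mul_one]
  exact hC ξ

/-- only countably many nonzero coefficients. -/
theorem countable_cf {P : Measure Ω} [IsFiniteMeasure P] {X : Ω → ℝ} {h : Ω → ℂ} (hX : Measurable X) :
    {z | cf P X h z ≠ 0}.Countable := by
  apply (Measure.countable_meas_level_set_pos (μ := P) hX).mono
  intro z hz
  show 0 < P {a | X a = z}
  rw [pos_iff_ne_zero]
  intro h0
  apply hz
  unfold cf
  rw [Measure.restrict_eq_zero.mpr h0, integral_zero_measure]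

/-- Product of two transforms. -/
theorem HasRep.mul {P : Measure Ω} [IsFiniteMeasure P] {X : Ω → ℝ} {h : Ω → ℂ} {f : ℝ → ℂ}
    (H : HasRep P X h f) {Q : Measure Ω'} [IsFiniteMeasure Q] {Y : Ω' → ℝ} {k : Ω' → ℂ} {g : ℝ → ℂ}
    (H' : HasRep Q Y k g) :
    HasRep (P.prod Q) (fun p => X p.1 + Y p.2) (fun p => h p.1 * k p.2) (fun ξ => f ξ * g ξ) := by
  refine ⟨?_, H.2.1.mul_prod H'.2.1, fun ξ => ?_⟩
  · have h1 := H.1
    have h2 := H'.1
    fun_prop
  · show f ξ * g ξ = _
    rw [H.2.2 ξ, H'.2.2 ξ, ← integral_prod_mul]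
    congr 1
    funext p
    rw [mul_add, ch_add]
    ring

/-- Translate. -/
theorem HasRep.translate {P : Measure Ω} {X : Ω → ℝ} {h : Ω → ℂ} {f : ℝ → ℂ}
    (H : HasRep P X h f) (s : ℝ) :
    HasRep P X (fun ω => ch (s * X ω) * h ω) (fun ξ => f (ξ + s)) := by
  have h1 := H.1
  refine ⟨H.1, integrable_ch_mul (by fun_prop) H.2.1, fun ξ => ?_⟩
  show f (ξ + s) = _
  rw [H.2.2]
  congr 1
  funext ω
  rw [add_mul, ch_add]
  ring

/-- Reflection. -/
theorem HasRep.reflect {P : Measure Ω} {X : Ω → ℝ} {h : Ω → ℂ} {f : ℝ → ℂ}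
    (H : HasRep P X h f) : HasRep P (fun ω => -X ω) h (fun ξ => f (-ξ)) := by
  refine ⟨H.1.neg, H.2.1, fun ξ => ?_⟩
  show f (-ξ) = _
  rw [H.2.2]
  congr 1
  funext ω
  congr 2
  ring

theorem cf_reflect {P : Measure Ω} {X : Ω → ℝ} {h : Ω → ℂ} (z : ℝ) :
    cf P (fun ω => -X ω) h z = cf P X h (-z) := by
  unfold cf
  congr 2
  ext ω
  constructor
  · intro h
    have h' : -X ω = z := h
    show X ω = -z
    rw [← h', neg_neg]
  · intro h
    have h' : X ω = -z := h
    show -X ω = z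
    rw [h', neg_neg]

/-- If all coefficients at `z` of the products with translates vanish then so do all products of
coefficients at `x` and `z - x`. -/
theorem prod_coef_zero {P : Measure Ω} [IsFiniteMeasure P] {X : Ω → ℝ} {h : Ω → ℂ}
    (hX : Measurable X) (hh : Integrable h P) {Q : Measure Ω'} [IsFiniteMeasure Q] {Y : Ω' → ℝ}
    {k : Ω' → ℂ} (hY : Measurable Y) (hk : Integrable k Q) (z : ℝ)
    (h0 : ∀ s : ℝ, cf (P.prod Q) (fun p => X p.1 + Y p.2) (fun p => (ch (s * X p.1) * h p.1) * k p.2) z = 0)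
    (x : ℝ) : cf P X h x * cf Q Y k (z - x) = 0 := by
  have hS : MeasurableSet {p : Ω × Ω' | X p.1 + Y p.2 = z} :=
    measurableSet_level (by fun_prop : Measurable (fun p : Ω × Ω' => X p.1 + Y p.2)) z
  set g : Ω × Ω' → ℂ := {p : Ω × Ω' | X p.1 + Y p.2 = z}.indicator (fun p => h p.1 * k p.2) with hg
  have hgi : Integrable g (P.prod Q) := (hh.mul_prod hk).indicator hS
  have H : HasRep (P.prod Q) (fun p : Ω × Ω' => X p.1) g (fun _ => 0) := by
    refine ⟨by fun_prop, hgi, fun s => ?_⟩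
    rw [← h0 s]
    unfold cf
    show ∫ p in {p : Ω × Ω' | X p.1 + Y p.2 = z}, ch (s * X p.1) * h p.1 * k p.2 ∂(P.prod Q) = _
    rw [← integral_indicator hS]
    refine integral_congr_ae (Eventually.of_forall fun p => ?_)
    show {p : Ω × Ω' | X p.1 + Y p.2 = z}.indicator (fun p => ch (s * X p.1) * h p.1 * k p.2) p =
      ch (s * X p.1) * g p
    by_cases hp : p ∈ {p : Ω × Ω' | X p.1 + Y p.2 = z}
    · rw [indicator_of_mem hp, hg, indicator_of_mem hp]; ring
    · rw [indicator_of_notMem hp, hg, indicator_of_notMem hp, mul_zero]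
  have h1 : cf (P.prod Q) (fun p : Ω × Ω' => X p.1) g x = 0 := by
    have h2 := H.mean_tendsto x
    have h3 : Tendsto (fun n => mean (fun ξ => (0:ℂ) * ch (-(ξ * x))) n) atTop (𝓝 0) := by
      have : ∀ n, mean (fun ξ => (0:ℂ) * ch (-(ξ * x))) n = 0 := by
        intro n
        simp only [zero_mul]
        exact mean_const 0 n
      simp_rw [this]
      exact tendsto_const_nhds
    exact tendsto_nhds_unique h2 h3
  rw [← h1]
  unfold cf
  rw [← setIntegral_prod_mul h k]
  rw [← integral_indicator ((measurableSet_level hX x).prod (measurableSet_level hY (z - x))),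
    ← integral_indicator (measurableSet_level (by fun_prop : Measurable (fun p : Ω × Ω' => X p.1)) x)]
  congr 1
  funext p
  by_cases h1 : X p.1 = x
  · have m1 : p ∈ {ω : Ω × Ω' | X ω.1 = x} := h1
    rw [indicator_of_mem m1]
    by_cases h2 : Y p.2 = z - x
    · have m2 : p ∈ {ω | X ω = x} ×ˢ {ω | Y ω = z - x} := ⟨h1, h2⟩
      have m3 : p ∈ {p : Ω × Ω' | X p.1 + Y p.2 = z} := by
        show X p.1 + Y p.2 = z
        rw [h1, h2]; ring
      rw [indicator_of_mem m2, hg, indicator_of_mem m3]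
    · have m2 : p ∉ {ω | X ω = x} ×ˢ {ω | Y ω = z - x} := fun hc => h2 hc.2
      have m3 : p ∉ {p : Ω × Ω' | X p.1 + Y p.2 = z} := by
        intro hc
        apply h2
        have hc' : X p.1 + Y p.2 = z := hc
        rw [← hc', h1]; ring
      rw [indicator_of_notMem m2, hg, indicator_of_notMem m3]
  · have m1 : p ∉ {ω : Ω × Ω' | X ω.1 = x} := h1
    have m2 : p ∉ {ω | X ω = x} ×ˢ {ω | Y ω = z - x} := fun hc => h1 hc.1
    rw [indicator_of_notMem m1, indicator_of_notMem m2]

/-- A nonzero coefficient of a product comes from nonzero coefficients of the factors. -/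
theorem exists_coef {P : Measure Ω} [IsFiniteMeasure P] {X : Ω → ℝ} {h : Ω → ℂ}
    (hX : Measurable X) (hh : Integrable h P) {Q : Measure Ω'} [IsFiniteMeasure Q] {Y : Ω' → ℝ}
    {k : Ω' → ℂ} (hY : Measurable Y) (hk : Integrable k Q) (z : ℝ)
    (h0 : cf (P.prod Q) (fun p => X p.1 + Y p.2) (fun p => h p.1 * k p.2) z ≠ 0) :
    ∃ x, cf P X h x ≠ 0 ∧ cf Q Y k (z - x) ≠ 0 := by
  by_contra hcon
  push Not at hcon
  apply h0
  have hS : MeasurableSet {p : Ω × Ω' | X p.1 + Y p.2 = z} :=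
    measurableSet_level (by fun_prop : Measurable (fun p : Ω × Ω' => X p.1 + Y p.2)) z
  -- integrate over the second variable first
  have e1 : cf (P.prod Q) (fun p => X p.1 + Y p.2) (fun p => h p.1 * k p.2) z =
      ∫ ω, h ω * cf Q Y k (z - X ω) ∂P := by
    unfold cf
    rw [← integral_indicator hS, integral_prod _ ((hh.mul_prod hk).indicator hS)]
    congr 1
    funext ω
    rw [← integral_indicator (measurableSet_level hY (z - X ω)), ← integral_const_mul]
    congr 1
    funext ω'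
    by_cases hω : Y ω' = z - X ω
    · have m1 : (ω, ω') ∈ {p : Ω × Ω' | X p.1 + Y p.2 = z} := by
        show X ω + Y ω' = z
        rw [hω]; ring
      have m2 : ω' ∈ {ω' | Y ω' = z - X ω} := hω
      rw [indicator_of_mem m1, indicator_of_mem m2]
    · have m1 : (ω, ω') ∉ {p : Ω × Ω' | X p.1 + Y p.2 = z} := by
        intro hc
        apply hω
        have hc' : X ω + Y ω' = z := hc
        rw [← hc']; ring
      have m2 : ω' ∉ {ω' | Y ω' = z - X ω} := hω
      rw [indicator_of_notMem m1, indicator_of_notMem m2, mul_zero]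
  rw [e1]
  set D := {u | cf Q Y k u ≠ 0} with hD
  have hDc : D.Countable := countable_cf hY
  have : Countable D := hDc.to_subtype
  -- the set where the integrand does not vanish
  set A : D → Set Ω := fun u => {ω | X ω = z - u.1} with hA
  have hAm : ∀ u, MeasurableSet (A u) := fun u => measurableSet_level hX _
  have hdisj : Pairwise (Function.onFun Disjoint A) := by
    intro u v huv
    rw [Function.onFun, Set.disjoint_left]
    intro ω h1 h2
    apply huv
    have h1' : X ω = z - u.1 := h1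
    have h2' : X ω = z - v.1 := h2
    apply Subtype.ext
    linarith
  have hsupp : ∀ ω, ω ∉ (⋃ u, A u) → h ω * cf Q Y k (z - X ω) = 0 := by
    intro ω hω
    by_cases hc : cf Q Y k (z - X ω) = 0
    · rw [hc, mul_zero]
    · exfalso
      apply hω
      rw [mem_iUnion]
      refine ⟨⟨z - X ω, hc⟩, ?_⟩
      show X ω = z - (z - X ω)
      ring
  have hint : Integrable (fun ω => h ω * cf Q Y k (z - X ω)) P := by
    have h5 := ((hh.mul_prod hk).indicator hS).integral_prod_left
    refine h5.congr (Eventually.of_forall (fun ω => ?_))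
    show ∫ ω', {p : Ω × Ω' | X p.1 + Y p.2 = z}.indicator (fun p => h p.1 * k p.2) (ω, ω') ∂Q =
      h ω * cf Q Y k (z - X ω)
    unfold cf
    rw [← integral_indicator (measurableSet_level hY (z - X ω)), ← integral_const_mul]
    congr 1
    funext ω'
    by_cases hω : Y ω' = z - X ω
    · have m1 : (ω, ω') ∈ {p : Ω × Ω' | X p.1 + Y p.2 = z} := by
        show X ω + Y ω' = z
        rw [hω]; ring
      have m2 : ω' ∈ {ω' | Y ω' = z - X ω} := hω
      rw [indicator_of_mem m1, indicator_of_mem m2]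
    · have m1 : (ω, ω') ∉ {p : Ω × Ω' | X p.1 + Y p.2 = z} := by
        intro hc
        apply hω
        have hc' : X ω + Y ω' = z := hc
        rw [← hc']; ring
      have m2 : ω' ∉ {ω' | Y ω' = z - X ω} := hω
      rw [indicator_of_notMem m1, indicator_of_notMem m2, mul_zero]
  have e2 : ∫ ω, h ω * cf Q Y k (z - X ω) ∂P = ∫ ω in ⋃ u, A u, h ω * cf Q Y k (z - X ω) ∂P := by
    rw [setIntegral_eq_integral_of_forall_compl_eq_zero hsupp]
  rw [e2]
  have h3 := hasSum_integral_iUnion hAm hdisj hint.integrableOn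
  rw [← h3.tsum_eq]
  have h4 : ∀ u : D, ∫ ω in A u, h ω * cf Q Y k (z - X ω) ∂P = 0 := by
    intro u
    have h5 : ∫ ω in A u, h ω * cf Q Y k (z - X ω) ∂P = ∫ ω in A u, h ω * cf Q Y k u.1 ∂P := by
      apply setIntegral_congr_fun (hAm u)
      intro ω hω
      have hω' : X ω = z - u.1 := hω
      show h ω * cf Q Y k (z - X ω) = h ω * cf Q Y k u.1
      rw [hω']
      congr 2
      ring
    rw [h5, integral_mul_const]
    have h6 : ∫ ω in A u, h ω ∂P = cf P X h (z - u.1) := rfl
    rw [h6]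
    by_cases h7 : cf P X h (z - u.1) = 0
    · rw [h7, zero_mul]
    · exfalso
      have := hcon _ h7
      rw [show z - (z - u.1) = u.1 by ring] at this
      exact u.2 this
  simp_rw [h4]
  exact tsum_zero

end

end Pool.Agent.J4H86.AS
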