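import Pool.Agent.J4H86.AS.Bse
import Pool.Agent.J4H86.AS.Main

/-!
# Analytic semigroups in `L¹(ℝ)`
-/

set_option autoImplicit false

open MeasureTheory Filter Topology Set
open scoped ENNReal FourierTransform ContDiff

namespace Pool.Agent.J4H86.AS

/-- holomorphic multiplicative functions on the right half plane are exponentials -/
theorem exists_exp {h : ℂ → ℂ} (hd : DifferentiableOn ℂ h {t | 0 < t.re})
    (hm : ∀ s t : ℂ, 0 < s.re → 0 < t.re → h (s + t) = h s * h t)
    {t₀ : ℂ} (ht₀ : 0 < t₀.re) (h0 : h t₀ ≠ 0) :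
    h 1 ≠ 0 ∧ ∀ t : ℂ, 0 < t.re → h t = Complex.exp (t * (deriv h 1 / h 1)) := by
  have hHo : IsOpen {t : ℂ | 0 < t.re} := isOpen_lt continuous_const Complex.continuous_re
  have hHc : Convex ℝ {t : ℂ | 0 < t.re} := convex_halfSpace_re_gt 0
  have han : AnalyticOnNhd ℂ h {t : ℂ | 0 < t.re} := hd.analyticOnNhd hHo
  have hne : ∀ t : ℂ, 0 < t.re → h t ≠ 0 := by
    intro t ht hz
    have h1 : EqOn h 0 {t : ℂ | 0 < t.re} := by
      apply han.eqOn_zero_of_preconnected_of_eventuallyEq_zero hHc.isPreconnected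
        (z₀ := t + 1) (by show 0 < (t + 1).re; simp; linarith)
      have hev : ∀ᶠ s in 𝓝 (t + 1), t.re < s.re :=
        (isOpen_lt continuous_const Complex.continuous_re).mem_nhds (by show t.re < (t + 1).re; simp)
      filter_upwards [hev] with s hs
      have e : s = t + (s - t) := by ring
      rw [e, hm t (s - t) ht (by simp; linarith), hz, zero_mul]
      rfl
    exact h0 (h1 ht₀)
  have h1re : 0 < (1:ℂ).re := by simp
  have hda : ∀ t : ℂ, 0 < t.re → HasDerivAt h (deriv h t) t := fun t ht =>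
    (hd.differentiableAt (hHo.mem_nhds ht)).hasDerivAt
  -- derivative relation
  have hrel : ∀ s t : ℂ, 0 < s.re → 0 < t.re → deriv h (s + t) = deriv h s * h t := by
    intro s t hs ht
    have a1 : HasDerivAt (fun z => h (z + t)) (deriv h (s + t)) s :=
      (hda (s + t) (by rw [Complex.add_re]; linarith)).comp_add_const s t
    have a2 : HasDerivAt (fun z => h z * h t) (deriv h s * h t) s := (hda s hs).mul_const _
    have a3 : (fun z => h (z + t)) =ᶠ[𝓝 s] fun z => h z * h t := by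
      filter_upwards [hHo.mem_nhds hs] with z hz
      exact hm z t hz ht
    exact a1.unique (a2.congr_of_eventuallyEq a3)
  set c := deriv h 1 / h 1 with hc
  have hderiv : ∀ s : ℂ, 0 < s.re → deriv h s = c * h s := by
    intro s hs
    have a1 := hrel s 1 hs h1re
    have a2 := hrel 1 s h1re hs
    rw [add_comm] at a2
    rw [a2] at a1
    rw [hc, div_mul_eq_mul_div, eq_div_iff (hne 1 h1re)]
    exact a1.symm
  -- h e^{-ct} is constant
  set g : ℂ → ℂ := fun t => h t * Complex.exp (-(c * t)) with hg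
  have hgd : ∀ t : ℂ, 0 < t.re → HasDerivAt g 0 t := by
    intro t ht
    have a1 : HasDerivAt (fun t : ℂ => Complex.exp (-(c * t))) (Complex.exp (-(c * t)) * (-(c * 1))) t :=
      ((hasDerivAt_id t).const_mul c).neg.cexp
    have a2 := (hda t ht).mul a1
    have e : deriv h t * Complex.exp (-(c * t)) + h t * (Complex.exp (-(c * t)) * (-(c * 1))) = 0 := by
      rw [hderiv t ht]; ring
    rw [e] at a2
    exact a2
  have hgc : ∀ s t : ℂ, 0 < s.re → 0 < t.re → g s = g t := by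
    intro s t hs ht
    exact hHo.is_const_of_deriv_eq_zero hHc.isPreconnected
      (fun z hz => (hgd z hz).differentiableAt.differentiableWithinAt)
      (fun z hz => (hgd z hz).deriv) hs ht
  refine ⟨hne 1 h1re, fun t ht => ?_⟩
  have hg1 : g 1 = 1 := by
    have e2 : h (1 + 1) = h 1 * h 1 := hm 1 1 h1re h1re
    have h2re : 0 < ((1:ℂ) + 1).re := by simp
    have e3 : g (1 + 1) = g 1 * g 1 := by
      rw [hg]
      show h (1 + 1) * Complex.exp (-(c * (1 + 1))) = (h 1 * Complex.exp (-(c * 1))) * (h 1 * Complex.exp (-(c * 1)))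
      rw [e2, show -(c * (1 + 1)) = -(c * 1) + -(c * 1) by ring, Complex.exp_add]
      ring
    rw [hgc (1 + 1) 1 h2re h1re] at e3
    have e4 : g 1 ≠ 0 := mul_ne_zero (hne 1 h1re) (Complex.exp_ne_zero _)
    have e5 : g 1 * 1 = g 1 * g 1 := by rw [mul_one]; exact e3
    exact (mul_left_cancel₀ e4 e5).symm
  have e6 := hgc t 1 ht h1re
  rw [hg1] at e6
  have e7 : h t * Complex.exp (-(c * t)) = 1 := e6
  calc h t = h t * Complex.exp (-(c * t)) * Complex.exp (c * t) := by
        rw [mul_assoc, ← Complex.exp_add, neg_add_cancel, Complex.exp_zero, mul_one]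
    _ = Complex.exp (t * c) := by rw [e7, one_mul, mul_comm]

/-- Fourier transform at a point as a functional on `L¹`. -/
noncomputable def FTc (ξ : ℝ) : (Lp ℂ 1 (volume : Measure ℝ)) →L[ℂ] ℂ :=
  LinearMap.mkContinuous
    { toFun := fun g => ∫ x, ch (ξ * x) * (g : ℝ → ℂ) x
      map_add' := by
        intro f g
        rw [← integral_add]
        · apply integral_congr_ae
          filter_upwards [Lp.coeFn_add f g] with x hx
          rw [hx, Pi.add_apply, mul_add]
        · exact integrable_ch_mul (by fun_prop) (L1.integrable_coeFn f)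
        · exact integrable_ch_mul (by fun_prop) (L1.integrable_coeFn g)
      map_smul' := by
        intro c f
        rw [RingHom.id_apply, smul_eq_mul, ← integral_const_mul]
        apply integral_congr_ae
        filter_upwards [Lp.coeFn_smul c f] with x hx
        rw [hx, Pi.smul_apply, smul_eq_mul]
        ring } 1 (by
    intro g
    rw [one_mul]
    show ‖∫ x, ch (ξ * x) * (g : ℝ → ℂ) x‖ ≤ ‖g‖
    rw [L1.norm_eq_integral_norm]
    refine (norm_integral_le_integral_norm _).trans (le_of_eq ?_)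
    congr 1
    funext x
    rw [norm_mul, norm_ch, one_mul])

theorem FTc_apply (ξ : ℝ) (g : Lp ℂ 1 (volume : Measure ℝ)) :
    FTc ξ g = ∫ x, ch (ξ * x) * (g : ℝ → ℂ) x := rfl

theorem FTc_eq (ξ : ℝ) (g : Lp ℂ 1 (volume : Measure ℝ)) : FTc ξ g = 𝓕 (g : ℝ → ℂ) ξ := by
  rw [FTc_apply, fourier_eq]

theorem norm_FTc_le (ξ : ℝ) (g : Lp ℂ 1 (volume : Measure ℝ)) : ‖FTc ξ g‖ ≤ ‖g‖ := by
  rw [FTc_apply, L1.norm_eq_integral_norm]
  refine (norm_integral_le_integral_norm _).trans (le_of_eq ?_)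
  congr 1
  funext x
  rw [norm_mul, norm_ch, one_mul]

theorem continuous_FTc (g : Lp ℂ 1 (volume : Measure ℝ)) : Continuous (fun ξ => FTc ξ g) := by
  have : (fun ξ => FTc ξ g) = 𝓕 (g : ℝ → ℂ) := by
    funext ξ; exact FTc_eq ξ g
  rw [this]
  exact continuous_fourier (L1.integrable_coeFn g)

theorem FTc_zero_at_infty (g : Lp ℂ 1 (volume : Measure ℝ)) :
    Tendsto (fun ξ => FTc ξ g) (cocompact ℝ) (𝓝 0) := by
  have : (fun ξ => FTc ξ g) = 𝓕 (g : ℝ → ℂ) := by
    funext ξ; exact FTc_eq ξ g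
  rw [this]
  exact Real.zero_at_infty_fourier _

/-- injectivity of the Fourier transform on `L¹`. -/
theorem FTc_injective {g : Lp ℂ 1 (volume : Measure ℝ)} (hg : ∀ ξ, FTc ξ g = 0) : g = 0 := by
  rw [Lp.eq_zero_iff_ae_eq_zero]
  have hgi : Integrable (g : ℝ → ℂ) := L1.integrable_coeFn g
  apply ae_eq_zero_of_integral_contDiff_smul_eq_zero hgi.locallyIntegrable
  intro φ hφ hφc
  have hφ1 : ContDiff ℝ ∞ (fun x => (φ x : ℂ)) := Complex.ofRealCLM.contDiff.comp hφ
  have hφ2 : HasCompactSupport (fun x => (φ x : ℂ)) := hφc.comp_left (g := fun r : ℝ => (r : ℂ)) Complex.ofReal_zero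
  set Φ : SchwartzMap ℝ ℂ := hφ2.toSchwartzMap hφ1 with hΦ
  set Ψ : SchwartzMap ℝ ℂ := 𝓕⁻ Φ with hΨ
  have hFΨ : ∀ x, (φ x : ℂ) = ∫ ξ, ch (x * ξ) * Ψ ξ := by
    intro x
    rw [← fourier_eq]
    have h1 : 𝓕 Ψ = Φ := by
      rw [hΨ]
      exact FourierTransform.fourier_fourierInv_eq Φ
    have h2 : 𝓕 (Ψ : ℝ → ℂ) = (Φ : ℝ → ℂ) := by
      rw [← SchwartzMap.fourier_coe, h1]
    rw [h2]
    rfl
  have hΨi : Integrable (Ψ : ℝ → ℂ) := Ψ.integrable
  calc ∫ x, φ x • (g : ℝ → ℂ) x = ∫ x, ∫ ξ, ch (x * ξ) * (Ψ ξ * (g : ℝ → ℂ) x) := by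
        congr 1
        funext x
        rw [Complex.real_smul, hFΨ x, ← integral_mul_const]
        congr 1
        funext ξ
        ring
    _ = ∫ ξ, ∫ x, ch (x * ξ) * (Ψ ξ * (g : ℝ → ℂ) x) := by
        rw [integral_integral_swap]
        have h2 : Integrable (fun q : ℝ × ℝ => Ψ q.2 * (g : ℝ → ℂ) q.1) (volume.prod volume) := by
          have := hgi.mul_prod hΨi
          refine this.congr (Eventually.of_forall fun q => ?_)
          exact mul_comm _ _
        have h3 : Measurable (fun q : ℝ × ℝ => q.1 * q.2) := by fun_prop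
        exact integrable_ch_mul h3 h2
    _ = ∫ ξ, Ψ ξ * FTc ξ g := by
        congr 1
        funext ξ
        rw [FTc_apply, ← integral_const_mul]
        congr 1
        funext x
        rw [mul_comm x ξ]
        ring
    _ = 0 := by
        simp_rw [hg, mul_zero]
        exact integral_zero _ _

/-- An analytic semigroup in the convolution algebra `L¹(ℝ)`. -/
def IsAnalyticSemigroup (a : ℂ → Lp ℂ 1 (volume : Measure ℝ)) : Prop :=
  DifferentiableOn ℂ a {t | 0 < t.re} ∧
  (∀ s t : ℂ, 0 < s.re → 0 < t.re →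
    ∀ᵐ x : ℝ, (a (s + t) : ℝ → ℂ) x = ∫ y, (a s : ℝ → ℂ) (x - y) * (a t : ℝ → ℂ) y) ∧
  ∃ t : ℂ, 0 < t.re ∧ a t ≠ 0

theorem FTc_mul {a : ℂ → Lp ℂ 1 (volume : Measure ℝ)} (ha : IsAnalyticSemigroup a) (ξ : ℝ) (s t : ℂ)
    (hs : 0 < s.re) (ht : 0 < t.re) : FTc ξ (a (s + t)) = FTc ξ (a s) * FTc ξ (a t) := by
  have h1 := ha.2.1 s t hs ht
  rw [FTc_eq, FTc_eq, FTc_eq, mul_comm,
    ← Real.fourier_mul_convolution_eq (L1.integrable_coeFn (a t)) (L1.integrable_coeFn (a s)) ξ,
    fourier_eq, fourier_eq]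
  apply integral_congr_ae
  filter_upwards [h1] with x hx
  rw [hx]
  congr 1
  unfold convolution
  congr 1
  funext y
  show _ = (a t : ℝ → ℂ) y * (a s : ℝ → ℂ) (x - y)
  ring

theorem no_bounded_semigroup {a : ℂ → Lp ℂ 1 (volume : Measure ℝ)} (ha : IsAnalyticSemigroup a)
    {M : ℝ} (hM : ∀ t : ℂ, 0 < t.re → ‖t‖ ≤ 1 → ‖a t‖ ≤ M) : False := by
  have hHo : IsOpen {t : ℂ | 0 < t.re} := isOpen_lt continuous_const Complex.continuous_re
  have h1re : 0 < (1:ℂ).re := by simp
  have hda1 : HasDerivAt a (deriv a 1) 1 := (ha.1.differentiableAt (hHo.mem_nhds h1re)).hasDerivAt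
  -- the scalar functions
  have hdiff : ∀ ξ, DifferentiableOn ℂ (fun t => FTc ξ (a t)) {t | 0 < t.re} := fun ξ =>
    (FTc ξ).differentiable.comp_differentiableOn ha.1
  have hderiv : ∀ ξ, deriv (fun t => FTc ξ (a t)) 1 = FTc ξ (deriv a 1) := fun ξ =>
    ((FTc ξ).hasFDerivAt.comp_hasDerivAt (1:ℂ) hda1).deriv
  set θ : ℝ → ℂ := fun ξ => FTc ξ (deriv a 1) / FTc ξ (a 1) with hθ
  set U : Set ℝ := {ξ | FTc ξ (a 1) ≠ 0} with hU
  have hexp : ∀ ξ ∈ U, ∀ t : ℂ, 0 < t.re → FTc ξ (a t) = Complex.exp (t * θ ξ) := by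
    intro ξ hξ t ht
    have := (exists_exp (hdiff ξ) (fun s t hs ht => FTc_mul ha ξ s t hs ht) h1re hξ).2 t ht
    rw [this, hderiv]
  have hzero : ∀ ξ, ξ ∉ U → ∀ t : ℂ, 0 < t.re → FTc ξ (a t) = 0 := by
    intro ξ hξ t ht
    by_contra hcon
    exact hξ (exists_exp (hdiff ξ) (fun s t hs ht => FTc_mul ha ξ s t hs ht) ht hcon).1
  have hUo : IsOpen U := isOpen_ne_fun (continuous_FTc _) continuous_const
  have hθc : ContinuousOn θ U :=
    (continuous_FTc _).continuousOn.div (continuous_FTc _).continuousOn (fun ξ hξ => hξ)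
  -- bound for the imaginary part
  have hbd : ∀ t : ℂ, 0 < t.re → ‖t‖ ≤ 1 → ∀ ξ, ‖FTc ξ (a t)‖ ≤ M := fun t h1 h2 ξ =>
    (norm_FTc_le ξ _).trans (hM t h1 h2)
  have hseqre : ∀ (y : ℝ) (n : ℕ), |y| < 1 →
      0 < ((((1 - |y|) / ((n:ℝ) + 1) : ℝ) : ℂ) + y * Complex.I).re := by
    intro y n hy
    simp only [Complex.add_re, Complex.ofReal_re, Complex.mul_re, Complex.I_re, Complex.ofReal_im,
      Complex.I_im, mul_zero, mul_one, sub_self, add_zero, zero_mul]
    apply div_pos (by linarith) (by positivity)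
  have hseqn : ∀ (y : ℝ) (n : ℕ), |y| < 1 →
      ‖(((1 - |y|) / ((n:ℝ) + 1) : ℝ) : ℂ) + y * Complex.I‖ ≤ 1 := by
    intro y n hy
    refine (norm_add_le _ _).trans ?_
    rw [norm_mul, Complex.norm_I, mul_one, Complex.norm_real, Complex.norm_real, Real.norm_eq_abs,
      Real.norm_eq_abs, abs_of_nonneg (div_nonneg (by linarith) (by positivity))]
    have : (1 - |y|) / ((n:ℝ) + 1) ≤ (1 - |y|) := by
      apply div_le_self (by linarith)
      have : (0:ℝ) ≤ n := Nat.cast_nonneg n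
      linarith
    linarith
  have hseqlim : ∀ y : ℝ, Tendsto (fun n : ℕ => ((((1 - |y|) / ((n:ℝ) + 1) : ℝ) : ℂ) + y * Complex.I))
      atTop (𝓝 (y * Complex.I)) := by
    intro y
    have h1 : Tendsto (fun n : ℕ => (1 - |y|) * (1 / ((n:ℝ) + 1))) atTop (𝓝 ((1 - |y|) * 0)) :=
      tendsto_one_div_add_atTop_nhds_zero_nat.const_mul _
    rw [mul_zero] at h1
    have h2 := (Complex.continuous_ofReal.tendsto 0).comp h1
    have h3 := h2.add_const ((y:ℂ) * Complex.I)
    rw [Complex.ofReal_zero, zero_add] at h3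
    refine h3.congr (fun n => ?_)
    show (((1 - |y|) * (1 / ((n:ℝ) + 1)) : ℝ) : ℂ) + _ = _
    congr 2
    ring
  have hlimU : ∀ ξ ∈ U, ∀ y : ℝ, |y| < 1 →
      Tendsto (fun n : ℕ => FTc ξ (a ((((1 - |y|) / ((n:ℝ) + 1) : ℝ) : ℂ) + y * Complex.I))) atTop
        (𝓝 (Complex.exp (Complex.I * y * θ ξ))) := by
    intro ξ hξ y hy
    have h1 : ∀ n : ℕ, FTc ξ (a ((((1 - |y|) / ((n:ℝ) + 1) : ℝ) : ℂ) + y * Complex.I)) =
        Complex.exp (((((1 - |y|) / ((n:ℝ) + 1) : ℝ) : ℂ) + y * Complex.I) * θ ξ) := fun n =>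
      hexp ξ hξ _ (hseqre y n hy)
    simp_rw [h1]
    have h2 : Tendsto (fun t : ℂ => Complex.exp (t * θ ξ)) (𝓝 (y * Complex.I))
        (𝓝 (Complex.exp (y * Complex.I * θ ξ))) := by
      apply Continuous.tendsto
      fun_prop
    have h3 := h2.comp (hseqlim y)
    rw [mul_comm (y:ℂ) Complex.I] at h3 ⊢
    exact h3
  set m : ℝ := 2 * Real.log M with hm
  have him : ∀ ξ ∈ U, |(θ ξ).im| ≤ m := by
    intro ξ hξ
    have key : ∀ y : ℝ, |y| < 1 → -(y * (θ ξ).im) ≤ Real.log M := by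
      intro y hy
      have h1 := le_of_tendsto (hlimU ξ hξ y hy).norm
        (Eventually.of_forall fun n => hbd _ (hseqre y n hy) (hseqn y n hy) ξ)
      rw [Complex.norm_exp] at h1
      have e : (Complex.I * (y:ℂ) * θ ξ).re = -(y * (θ ξ).im) := by
        simp [Complex.mul_re, Complex.mul_im]
      rw [e] at h1
      have hMpos : 0 < M := lt_of_lt_of_le (Real.exp_pos _) h1
      rwa [← Real.exp_le_exp, Real.exp_log hMpos]
    have k1 := key (1/2) (by rw [abs_of_pos] <;> norm_num)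
    have k2 := key (-(1/2)) (by rw [abs_neg, abs_of_pos] <;> norm_num)
    rw [abs_le, hm]
    constructor <;> linarith
  -- U is nonempty
  have hUne : U.Nonempty := by
    obtain ⟨t, ht, hat⟩ := ha.2.2
    by_contra hcon
    rw [not_nonempty_iff_eq_empty] at hcon
    apply hat
    apply FTc_injective
    intro ξ
    exact hzero ξ (by rw [hcon]; exact notMem_empty ξ) t ht
  -- Fourier-Stieltjes limits
  have hFS : ∀ y : ℝ, |y| < 1 → ∃ F : ℝ → ℂ, IsFS F ∧ ∀ ξ ∈ U, F ξ = Complex.exp (Complex.I * y * θ ξ) := by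
    intro y hy
    classical
    set f : ℝ → ℂ := fun ξ => if ξ ∈ U then Complex.exp (Complex.I * y * θ ξ) else 0 with hf
    have hlim : ∀ ξ, Tendsto (fun n : ℕ =>
        𝓕 ((a ((((1 - |y|) / ((n:ℝ) + 1) : ℝ) : ℂ) + y * Complex.I) : Lp ℂ 1 (volume : Measure ℝ)) : ℝ → ℂ) ξ)
        atTop (𝓝 (f ξ)) := by
      intro ξ
      have h1 : ∀ n : ℕ, 𝓕 ((a ((((1 - |y|) / ((n:ℝ) + 1) : ℝ) : ℂ) + y * Complex.I) : Lp ℂ 1 (volume : Measure ℝ)) : ℝ → ℂ) ξ
          = FTc ξ (a ((((1 - |y|) / ((n:ℝ) + 1) : ℝ) : ℂ) + y * Complex.I)) := fun n => (FTc_eq ξ _).symm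
      simp_rw [h1]
      by_cases hξ : ξ ∈ U
      · rw [hf]
        simp only [hξ, if_true]
        exact hlimU ξ hξ y hy
      · rw [hf]
        simp only [hξ, if_false]
        have h2 : ∀ n : ℕ, FTc ξ (a ((((1 - |y|) / ((n:ℝ) + 1) : ℝ) : ℂ) + y * Complex.I)) = 0 := fun n =>
          hzero ξ hξ _ (hseqre y n hy)
        simp_rw [h2]
        exact tendsto_const_nhds
    obtain ⟨Ω, hΩ, P, hP, X, h, F, hrep, hae⟩ := exists_rep
      (g := fun n : ℕ => ((a ((((1 - |y|) / ((n:ℝ) + 1) : ℝ) : ℂ) + y * Complex.I) : Lp ℂ 1 (volume : Measure ℝ)) : ℝ → ℂ))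
      (M := M) (fun n => L1.integrable_coeFn _)
      (fun n => by
        rw [← L1.norm_eq_integral_norm]
        exact hM _ (hseqre y n hy) (hseqn y n hy)) hlim
    refine ⟨F, ⟨Ω, hΩ, P, hP, X, h, hrep⟩, ?_⟩
    have h3 : EqOn F f U := by
      apply Measure.eqOn_open_of_ae_eq (ae_restrict_of_ae hae) hUo hrep.continuous.continuousOn
      have h4 : ContinuousOn (fun ξ => Complex.exp (Complex.I * y * θ ξ)) U := by
        apply Complex.continuous_exp.comp_continuousOn
        exact continuousOn_const.mul hθc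
      apply h4.congr
      intro ξ hξ
      rw [hf]
      simp only [hξ, if_true]
    intro ξ hξ
    rw [h3 hξ, hf]
    simp only [hξ, if_true]
  -- real part tends to -∞ where the transform of `a 1` tends to zero
  have hre : ∀ ξ ∈ U, ‖FTc ξ (a 1)‖ = Real.exp (θ ξ).re := by
    intro ξ hξ
    rw [hexp ξ hξ 1 h1re, one_mul, Complex.norm_exp]
  -- U is everything
  have hUuniv : U = univ := by
    by_contra hne
    have hnc : ¬ IsClosed U := by
      intro hcl
      rcases isClopen_iff.mp ⟨hcl, hUo⟩ with h | h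
      · exact hUne.ne_empty h
      · exact hne h
    obtain ⟨ξ₀, hξ₀, hξ₀U⟩ : ∃ ξ₀ ∈ closure U, ξ₀ ∉ U := by
      by_contra hcon
      push Not at hcon
      exact hnc (isClosed_of_closure_subset hcon)
    obtain ⟨x, hxU, hxlim⟩ := mem_closure_iff_seq_limit.mp hξ₀
    have hFS' : ∀ y : ℝ, ∃ v : ℂ, |y| < 1 →
        Tendsto (fun n => Complex.exp (Complex.I * y * θ (x n))) atTop (𝓝 v) := by
      intro y
      by_cases hy : |y| < 1
      · obtain ⟨F, hF, hFU⟩ := hFS y hy
        refine ⟨F ξ₀, fun _ => ?_⟩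
        have h1 := (hF.continuous.tendsto ξ₀).comp hxlim
        refine h1.congr (fun n => ?_)
        exact hFU _ (hxU n)
      · exact ⟨0, fun h => absurd h hy⟩
    choose v hv using hFS'
    refine no_limit (θ := fun n => θ (x n)) (m := m) (fun n => him _ (hxU n)) ?_ (v := v)
      (fun y hy => hv y (by rw [abs_of_pos hy.1]; exact hy.2))
    have h1 : Tendsto (fun n => Real.exp (θ (x n)).re) atTop (𝓝 0) := by
      have h2 := (((continuous_FTc (a 1)).tendsto ξ₀).comp hxlim).norm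
      have h3 : FTc ξ₀ (a 1) = 0 := by
        by_contra hcon
        exact hξ₀U hcon
      rw [h3, norm_zero] at h2
      refine h2.congr (fun n => ?_)
      exact hre _ (hxU n)
    rw [Real.tendsto_exp_comp_nhds_zero] at h1
    apply tendsto_atTop_mono (f := fun n => -(θ (x n)).re)
    · intro n
      exact (neg_le_abs _).trans (Complex.abs_re_le_norm _)
    · exact tendsto_neg_atBot_atTop.comp h1
  -- conclusion
  have hθc' : Continuous θ := by
    rw [← continuousOn_univ, ← hUuniv]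
    exact hθc
  have him' : ∀ ξ, |(θ ξ).im| ≤ m := fun ξ => him ξ (by rw [hUuniv]; exact mem_univ ξ)
  have hFS2 : ∀ y : ℝ, |y| < 1 → IsFS (fun ξ => Complex.exp (Complex.I * y * θ ξ)) := by
    intro y hy
    obtain ⟨F, hF, hFU⟩ := hFS y hy
    have : F = fun ξ => Complex.exp (Complex.I * y * θ ξ) := by
      funext ξ
      exact hFU ξ (by rw [hUuniv]; exact mem_univ ξ)
    rw [← this]
    exact hF
  have hreinf : Tendsto (fun ξ => (θ ξ).re) (cocompact ℝ) atBot := by
    rw [← Real.tendsto_exp_comp_nhds_zero]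
    have h2 := (FTc_zero_at_infty (a 1)).norm
    rw [norm_zero] at h2
    refine h2.congr (fun ξ => ?_)
    exact hre ξ (by rw [hUuniv]; exact mem_univ ξ)
  refine final (Θ := fun ξ => θ ξ + θ (-ξ)) (m := m + m) ?_ ?_ ?_ ?_ ?_
  · fun_prop
  · intro ξ
    show θ (-ξ) + θ (- -ξ) = θ ξ + θ (-ξ)
    rw [neg_neg, add_comm]
  · intro ξ
    rw [Complex.add_im]
    exact (abs_add_le _ _).trans (add_le_add (him' _) (him' _))
  · apply tendsto_atTop_mono (f := fun ξ => -((θ ξ).re + (θ (-ξ)).re))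
    · intro ξ
      refine le_trans ?_ (Complex.abs_re_le_norm _)
      rw [Complex.add_re]
      exact neg_le_abs _
    · have h1 : Tendsto (fun ξ : ℝ => (θ ξ).re) atTop atBot :=
        hreinf.mono_left atTop_le_cocompact
      have h2 : Tendsto (fun ξ : ℝ => (θ (-ξ)).re) atTop atBot :=
        (hreinf.mono_left atBot_le_cocompact).comp tendsto_neg_atTop_atBot
      exact tendsto_neg_atBot_atTop.comp (h1.atBot_add_atBot h2)
  · intro y hy
    have h1 := (hFS2 y hy).mul (hFS2 y hy).reflect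
    have h2 : (fun ξ => Complex.exp (Complex.I * y * (θ ξ + θ (-ξ)))) = fun ξ =>
        Complex.exp (Complex.I * y * θ ξ) * Complex.exp (Complex.I * y * θ (-ξ)) := by
      funext ξ
      rw [← Complex.exp_add]
      congr 1
      ring
    rw [h2]
    exact h1

end Pool.Agent.J4H86.AS
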