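import Pool.Agent.J4H86.AS.Rep

/-!
# Oscillating exponentials have no pointwise limits
-/

set_option autoImplicit false

open MeasureTheory Filter Topology Set
open scoped ENNReal

namespace Pool.Agent.J4H86.AS

/-- Bounded pointwise limits of functions whose integrals tend to zero vanish a.e. -/
theorem lemmaZ {u : ℕ → ℝ → ℂ} {v : ℝ → ℂ} {C : ℝ} {β : ℝ}
    (hu : ∀ n, Continuous (u n)) (hb : ∀ n, ∀ y ∈ Ioo 0 β, ‖u n y‖ ≤ C)
    (hlim : ∀ y ∈ Ioo 0 β, Tendsto (fun n => u n y) atTop (𝓝 (v y)))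
    (hint : ∀ b ∈ Ioo 0 β, Tendsto (fun n => ∫ y in (0:ℝ)..b, u n y) atTop (𝓝 0)) :
    ∀ᵐ y, y ∈ Ioo 0 β → v y = 0 := by
  rcases le_or_gt β 0 with hβ | hβ
  · refine Eventually.of_forall fun y hy => ?_
    exact absurd (hy.1.trans hy.2) (not_lt.mpr hβ)
  -- the function on the interval
  set w : ℝ → ℂ := (Ioo 0 β).indicator v with hw
  have hC : 0 ≤ C := (norm_nonneg _).trans (hb 0 (β / 2) ⟨by linarith, by linarith⟩)
  have hwm : StronglyMeasurable w := by
    apply stronglyMeasurable_of_tendsto atTop (f := fun n => (Ioo 0 β).indicator (u n))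
    · intro n
      exact (hu n).stronglyMeasurable.indicator measurableSet_Ioo
    · rw [tendsto_pi_nhds]
      intro y
      by_cases hy : y ∈ Ioo 0 β
      · simp_rw [hw, indicator_of_mem hy]
        exact hlim y hy
      · simp_rw [hw, indicator_of_notMem hy]
        exact tendsto_const_nhds
  have hwb : ∀ y, ‖w y‖ ≤ C := by
    intro y
    by_cases hy : y ∈ Ioo 0 β
    · rw [hw, indicator_of_mem hy]
      exact le_of_tendsto (hlim y hy).norm (Eventually.of_forall fun n => hb n y hy)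
    · rw [hw, indicator_of_notMem hy, norm_zero]; exact hC
  have hwl : LocallyIntegrable w := by
    intro x
    refine ⟨Metric.ball x 1, Metric.ball_mem_nhds x one_pos, ?_⟩
    have : IsFiniteMeasure (volume.restrict (Metric.ball x 1)) := ⟨by simp⟩
    exact Integrable.of_bound hwm.aestronglyMeasurable C (Eventually.of_forall hwb)
  have hzero : ∀ b ∈ Ioo 0 β, ∫ y in (0:ℝ)..b, w y = 0 := by
    intro b hb'
    have h1 : Tendsto (fun n => ∫ y in (0:ℝ)..b, u n y) atTop (𝓝 (∫ y in (0:ℝ)..b, w y)) := by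
      apply intervalIntegral.tendsto_integral_filter_of_dominated_convergence (fun _ => C)
      · exact Eventually.of_forall fun n => (hu n).aestronglyMeasurable
      · refine Eventually.of_forall fun n => Eventually.of_forall fun y hy => ?_
        rw [uIoc_of_le hb'.1.le] at hy
        exact hb n y ⟨hy.1, lt_of_le_of_lt hy.2 hb'.2⟩
      · exact intervalIntegrable_const
      · refine Eventually.of_forall fun y hy => ?_
        rw [uIoc_of_le hb'.1.le] at hy
        have hy' : y ∈ Ioo 0 β := ⟨hy.1, lt_of_le_of_lt hy.2 hb'.2⟩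
        rw [hw, indicator_of_mem hy']
        exact hlim y hy'
    exact tendsto_nhds_unique h1 (hint b hb')
  filter_upwards [LocallyIntegrable.ae_hasDerivAt_integral hwl] with y hy hyI
  have h2 := hy 0
  have h3 : (fun x => ∫ t in (0:ℝ)..x, w t) =ᶠ[𝓝 y] fun _ => 0 := by
    filter_upwards [isOpen_Ioo.mem_nhds hyI] with x hx
    exact hzero x hx
  have h4 : HasDerivAt (fun x => ∫ t in (0:ℝ)..x, w t) 0 y :=
    (hasDerivAt_const y (0:ℂ)).congr_of_eventuallyEq h3
  have h5 := h2.unique h4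
  rw [hw, indicator_of_mem hyI] at h5
  exact h5

/-- The integral of an exponential. -/
theorem int_exp {θ : ℂ} (hθ : θ ≠ 0) {m : ℝ} (hm : |θ.im| ≤ m) {b : ℝ} (hb0 : 0 ≤ b) (hb1 : b ≤ 1) :
    ‖∫ y in (0:ℝ)..b, Complex.exp (Complex.I * y * θ)‖ ≤ (Real.exp m + 1) / ‖θ‖ := by
  have hc : Complex.I * θ ≠ 0 := mul_ne_zero Complex.I_ne_zero hθ
  have h1 : ∫ y in (0:ℝ)..b, Complex.exp (Complex.I * y * θ) =
      (Complex.exp (Complex.I * θ * b) - Complex.exp (Complex.I * θ * (0:ℝ))) / (Complex.I * θ) := by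
    rw [← integral_exp_mul_complex hc]
    apply intervalIntegral.integral_congr
    intro y _
    show Complex.exp (Complex.I * y * θ) = Complex.exp (Complex.I * θ * y)
    congr 1; ring
  rw [h1, norm_div, norm_mul, Complex.norm_I, one_mul]
  apply div_le_div_of_nonneg_right _ (norm_nonneg _)
  refine (norm_sub_le _ _).trans ?_
  have h2 : ‖Complex.exp (Complex.I * θ * (0:ℝ))‖ = 1 := by simp
  have h3 : ‖Complex.exp (Complex.I * θ * b)‖ ≤ Real.exp m := by
    rw [Complex.norm_exp]
    apply Real.exp_le_exp.mpr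
    have : (Complex.I * θ * (b:ℂ)).re = -(θ.im * b) := by
      simp [Complex.mul_re, Complex.mul_im]
    rw [this]
    have h4 := abs_le.mp hm
    nlinarith [h4.1, h4.2, abs_nonneg θ.im]
  rw [h2]
  linarith

theorem norm_exp_ge {θ : ℂ} {m : ℝ} (hm : |θ.im| ≤ m) {y : ℝ} (hy : |y| ≤ 1) :
    Real.exp (-m) ≤ ‖Complex.exp (Complex.I * y * θ)‖ ∧ ‖Complex.exp (Complex.I * y * θ)‖ ≤ Real.exp m := by
  rw [Complex.norm_exp]
  have : (Complex.I * (y:ℂ) * θ).re = -(y * θ.im) := by
    simp [Complex.mul_re, Complex.mul_im]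
  rw [this]
  have h1 : |y * θ.im| ≤ m := by
    rw [abs_mul]
    calc |y| * |θ.im| ≤ 1 * m := mul_le_mul hy hm (abs_nonneg _) zero_le_one
      _ = m := one_mul _
  have h2 := abs_le.mp h1
  constructor <;> apply Real.exp_le_exp.mpr <;> linarith [h2.1, h2.2]

/-- There is no pointwise limit of exponentials with frequencies tending to infinity. -/
theorem no_limit {θ : ℕ → ℂ} {m : ℝ} (hm : ∀ n, |(θ n).im| ≤ m)
    (hinf : Tendsto (fun n => ‖θ n‖) atTop atTop) {v : ℝ → ℂ}
    (hlim : ∀ y ∈ Ioo (0:ℝ) 1, Tendsto (fun n => Complex.exp (Complex.I * y * θ n)) atTop (𝓝 (v y))) :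
    False := by
  have hz := lemmaZ (u := fun n y => Complex.exp (Complex.I * y * θ n)) (v := v) (C := Real.exp m)
    (β := 1) (fun n => by fun_prop)
    (fun n y hy => (norm_exp_ge (hm n) (by rw [abs_of_pos hy.1]; exact hy.2.le)).2) hlim ?_
  · -- but the limit is bounded below
    have hpos : ∀ y ∈ Ioo (0:ℝ) 1, v y ≠ 0 := by
      intro y hy h0
      have h1 := (hlim y hy).norm
      rw [h0, norm_zero] at h1
      have h2 : Real.exp (-m) ≤ 0 := ge_of_tendsto h1 (Eventually.of_forall fun n =>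
        (norm_exp_ge (hm n) (by rw [abs_of_pos hy.1]; exact hy.2.le)).1)
      linarith [Real.exp_pos (-m)]
    have h3 : volume (Ioo (0:ℝ) 1) = 0 := by
      apply measure_mono_null _ hz
      intro y hy hc
      exact hpos y hy (hc hy)
    rw [Real.volume_Ioo] at h3
    simp at h3
  · intro b hb
    rw [tendsto_zero_iff_norm_tendsto_zero]
    have h1 : Tendsto (fun n => (Real.exp m + 1) / ‖θ n‖) atTop (𝓝 0) :=
      tendsto_const_nhds.div_atTop hinf
    apply squeeze_zero' (Eventually.of_forall fun n => norm_nonneg _) _ h1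
    filter_upwards [hinf.eventually_gt_atTop 0] with n hn
    exact int_exp (norm_pos_iff.mp hn) (hm n) hb.1.le hb.2.le

end Pool.Agent.J4H86.AS
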